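import Pool.Agent.U327.BG.UpG
import Pool.Agent.U327.BG.CoreN

/-!
# Off-diagonal order at multiples of the healing length, potentials with an integrable tail
-/

set_option autoImplicit false

open MeasureTheory
open scoped ENNReal

namespace Pool.Agent.U327.BG

open Pool.Agent.W761.CB Pool.Agent.W761.CC Pool.Agent.TH268.CC Pool.Agent.Y656

noncomputable section

/-- the last step -/
lemma fG_dn {n : ℕ} {S C₁ ν V R s μ x ε Λ : ℝ} (hS : 0 < S)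
    (hC₁ : 0 < C₁) (hμ : 0 < μ) (hV : 0 < V) (hν : 0 < ν)
    (hx : 1 ≤ x) (hs : s ^ 2 * ν ≤ Λ ^ 2) (hR : R ^ 2 * ν ≤ 1 / x)
    (h : (2 * n * Λ ^ 2 * C₁ * S + 16 * n * S) ≤ 2 * μ * ε / 2 ^ n * x) :
    (2 * n * s ^ 2 * (C₁ / x * (S * (ν ^ 2 * V))) +
      8 * n * R ^ 2 * (2 * (S * (ν ^ 2 * V)))) / μ ≤ 2 * (ε * (ν * V) / 2 ^ n) := by
  have hx0 : 0 < x := by linarith
  have hN : 0 < ν * V := by positivity
  rw [div_le_iff₀ hμ]
  have h4 : 2 * n * s ^ 2 * (C₁ / x * (S * (ν ^ 2 * V))) ≤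
      2 * n * Λ ^ 2 * C₁ * S / x * (ν * V) := by
    calc 2 * n * s ^ 2 * (C₁ / x * (S * (ν ^ 2 * V))) =
          2 * n * C₁ * S / x * (ν * V) * (s ^ 2 * ν) := by
          ring
      _ ≤ 2 * n * C₁ * S / x * (ν * V) * Λ ^ 2 :=
          mul_le_mul_of_nonneg_left hs (by positivity)
      _ = _ := by ring
  have h5 : 8 * n * R ^ 2 * (2 * (S * (ν ^ 2 * V))) ≤ 16 * n * S / x * (ν * V) := by
    calc 8 * n * R ^ 2 * (2 * (S * (ν ^ 2 * V))) = 16 * n * S * (ν * V) * (R ^ 2 * ν) := by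
          ring
      _ ≤ 16 * n * S * (ν * V) * (1 / x) := mul_le_mul_of_nonneg_left hR (by positivity)
      _ = _ := by ring
  have h6 : (2 * n * Λ ^ 2 * C₁ * S + 16 * n * S) * (ν * V / x) ≤
      2 * μ * ε / 2 ^ n * x * (ν * V / x) :=
    mul_le_mul_of_nonneg_right h (by positivity)
  have h7 : 2 * μ * ε / 2 ^ n * x * (ν * V / x) = 2 * (ε * (ν * V) / 2 ^ n) * μ := by
    field_simp
  rw [h7] at h6
  have h8 : (2 * n * Λ ^ 2 * C₁ * S + 16 * n * S) * (ν * V / x) =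
      2 * n * Λ ^ 2 * C₁ * S / x * (ν * V) + 16 * n * S / x * (ν * V) := by ring
  rw [h8] at h6
  exact (add_le_add h4 h5).trans h6

/-- Off-diagonal order at multiples of the healing length. -/
theorem coreG (n m : ℕ) (μ R₀ : ℝ) (v : ℝ → ℝ≥0∞) (hn : 3 ≤ n) (hm : m = n ^ 3 + 4 * n ^ 2)
    (hμ : 0 < μ) (hv : Measurable v)
    (hvt : ∫⁻ z in {z : Fin n → ℝ | R₀ < el z}, v (el z) ≠ ⊤)
    (hv0 : ∫⁻ z : Fin n → ℝ, v (el z) ≠ 0) (ε Λ : ℝ) (hε : 0 < ε) :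
    ∃ X δ : ℝ, 1 ≤ X ∧ 0 < δ ∧ ∀ y Z ρ : ℝ, X ≤ y → Z = y ^ m → ρ = 1 / Z ^ 2 →
      ∀ (L : ℝ) [Fact (0 < L)], Z ≤ L →
      ∀ N : ℕ, ρ / 2 * L ^ n ≤ N → (N : ℝ) ≤ ρ * L ^ n →
      ∀ Ψ : (Fin N → Tor n L) → ℂ, IsWf2 Ψ →
        (∀ Φ : (Fin N → Tor n L) → ℂ, IsWf Φ → enN (ENNReal.ofReal μ) (fun _ => 0) v Ψ ≤
          enN (ENNReal.ofReal μ) (fun _ => 0) v Φ + ENNReal.ofReal (δ * ρ ^ 2 * L ^ n)) →
        ∀ s : ℝ, 0 ≤ s → s ≤ Λ * Z → ∀ w ∈ cube n s,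
          Dn Ψ (pr L w) ≤ ENNReal.ofReal (2 * (ε * N / 2 ^ n)) := by
  have hTF := Pool.Agent.W135.CB.proof_tf
  have hFIB := Pool.Agent.W131.CB.fib
  have hPO2 := Pool.Agent.W880.CB.po2 hFIB
  have hBLK := Pool.Agent.W374.CB2.Blk.blk hTF
  have hLA1 := Pool.Agent.W372.CB.main hTF hBLK
  have hLA := Pool.Agent.W571.CB.La.proof_la hTF hBLK hLA1 hFIB
  have hKQ := Pool.Agent.W214.CC.main
  have hPOIC := Pool.Agent.W975.CC.main
  have hONE := Pool.Agent.W366.CC.One.one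
  have hCRD := Pool.Agent.W688.CC.crd hBLK
  have hn1 : 1 ≤ n := by omega
  have hn3 : (3 : ℝ) ≤ n := by exact_mod_cast hn
  obtain ⟨hmB, hmC⟩ := m_natN hn hm
  have hG0 : 0 < scat n μ v := gposH μ R₀ v hn hμ hv hv0 hvt
  have hcapH := capH hKQ hPOIC μ R₀ v hn1 hv hvt hG0
  have hupG := upG n μ R₀ v hn hμ hv hvt hG0
  obtain ⟨S, hS⟩ : ∃ S : ℝ, S = scat n μ v / 2 := ⟨_, rfl⟩
  have hS0 : 0 < S := by rw [hS]; linarith
  rw [← hS] at hcapH hupG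
  obtain ⟨CP, hCPd⟩ : ∃ CP : ℝ, CP = n * 2 ^ n / μ := ⟨_, rfl⟩
  have hCP : 0 < CP := by rw [hCPd]; positivity
  obtain ⟨CA, b₀, hCA, hb₀, hla⟩ := hLA n 2 CP v hn1 two_pos (by linarith) hCP.le hv hv0
  obtain ⟨D, x₀, hD, hx₀, hpar⟩ := parB n hn S μ CP CA b₀ 1 hS0 hμ hCP.le hCA
  obtain ⟨D', hD'⟩ : ∃ D' : ℝ, D' = D + D / S := ⟨_, rfl⟩
  have hDS : 0 < D / S := by positivity
  have hD'1 : 1 ≤ D' := by rw [hD']; linarith
  obtain ⟨C₁, hC₁⟩ : ∃ C₁ : ℝ, C₁ = 3 + 4 + 6 * D' := ⟨_, rfl⟩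
  have hC₁0 : 0 < C₁ := by rw [hC₁]; linarith
  obtain ⟨Q, hQ⟩ : ∃ Q, Q = 2 * n * Λ ^ 2 * C₁ * S + 16 * n * S := ⟨_, rfl⟩
  have hQ0 : 0 < Q := by rw [hQ]; positivity
  obtain ⟨κ, hκ⟩ : ∃ κ : ℝ, κ = 2 * μ * ε / 2 ^ n := ⟨_, rfl⟩
  have hκ0 : 0 < κ := by rw [hκ]; positivity
  -- the small parameter
  obtain ⟨x, hx⟩ : ∃ x : ℝ, x = 4 + Q / κ := ⟨_, rfl⟩
  have hQκ : 0 < Q / κ := by positivity
  have hx4 : 4 ≤ x := by rw [hx]; linarith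
  have hx1 : 1 < x := by linarith
  have hx0 : 0 < x := by linarith
  have hQx : Q ≤ κ * x := by
    have h1 : κ * x = κ * 4 + Q := by rw [hx]; field_simp
    rw [h1]
    linarith
  have hux0 : 0 < 1 / x := by positivity
  have hux1 : 1 / x ≤ 1 := by rw [div_le_one hx0]; exact hx1.le
  have hcx : 3 / x ≤ 1 := by rw [div_le_one hx0]; linarith
  obtain ⟨r₁, hr₁, hcap⟩ := hcapH (1 / x) hux0
  obtain ⟨W, hW1, hup⟩ := hupG (1 / x) hux0 hux1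
  obtain ⟨X, hX⟩ : ∃ X : ℝ, X = x₀ + x + r₁ + W := ⟨_, rfl⟩
  refine ⟨X, S / (4 * x), by rw [hX]; linarith, by positivity, ?_⟩
  intro y Z ρ hXy hZ hρ L _ hL N hN1 hN2 Ψ hΨ hnear
  rw [hX] at hXy
  have hyx₀ : x₀ ≤ y := by linarith
  have hyx : x ≤ y := by linarith
  have hyr : r₁ ≤ y := by linarith
  have hyW : W ≤ y := by linarith
  have hy4 : 4 ≤ y := by linarith
  have hy1 : 1 ≤ y := by linarith
  have hy0 : 0 < y := by linarith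
  have hZ1 : 1 ≤ Z := by rw [hZ]; exact one_le_pow₀ hy1
  have hyZ : y ≤ Z := by rw [hZ]; exact le_self_pow₀ hy1 (by omega)
  have hZ0 : 0 < Z := by linarith
  have hρ0 : 0 < ρ := by rw [hρ]; positivity
  have hLp : 0 < L := Fact.out
  have hLn : 0 < L ^ n := by positivity
  obtain ⟨ν, hν⟩ : ∃ ν : ℝ, ν = N / L ^ n := ⟨_, rfl⟩
  have hν1 : ρ / 2 ≤ ν := by rw [hν, le_div_iff₀ hLn]; exact hN1
  have hν2 : ν ≤ ρ := by rw [hν, div_le_iff₀ hLn]; exact hN2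
  have hν0 : 0 < ν := by linarith
  have hNν : (N : ℝ) = ν * L ^ n := by rw [hν]; field_simp
  have hx2m : y ^ (2 * (n ^ 3 + 4 * n ^ 2)) = Z ^ 2 := by
    rw [hZ, ← hm, ← pow_mul]
    congr 1
    ring
  have hνa : 1 / 2 / y ^ (2 * (n ^ 3 + 4 * n ^ 2)) ≤ ν := by
    rw [hx2m]
    refine le_trans (le_of_eq ?_) hν1
    rw [hρ]
    ring
  have hνb : ν ≤ 1 / y ^ (2 * (n ^ 3 + 4 * n ^ 2)) := by
    rw [hx2m, ← hρ]
    exact hν2
  have hνZ : ν ≤ 1 / Z ^ 2 := by rw [← hρ]; exact hν2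
  have hup' := hup L N ν (hyW.trans (hyZ.trans hL)) hν hν0 (by
      calc ν * W ≤ 1 / Z ^ 2 * Z ^ 2 := by
            refine mul_le_mul hνZ ?_ (by linarith) (by positivity)
            exact (hyW.trans hyZ).trans (le_self_pow₀ hZ1 (by norm_num))
        _ = 1 := by field_simp)
    (by
      have h1 : 1 = ρ * Z ^ 2 := by rw [hρ]; field_simp
      rw [h1]
      have h2 : ρ ≤ 2 * ν := by linarith
      have h3 : Z ^ 2 ≤ L ^ 2 := pow_le_pow_left₀ hZ0.le hL 2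
      exact mul_le_mul h2 h3 (by positivity) (by positivity))
  -- the blocks
  obtain ⟨B, hB⟩ : ∃ B : ℝ, B = y ^ (2 * n ^ 2 + 8 * n + 2) := ⟨_, rfl⟩
  have hB0 : 0 < B := by rw [hB]; positivity
  have hBL : B * y ≤ L := by
    refine le_trans ?_ hL
    rw [hB, ← pow_succ, hZ]
    exact pow_le_pow_right₀ hy1 hmB
  obtain ⟨q, b, hq4, hLb, hbB, hbB2⟩ := floor_blk hB0 hy4 hBL
  rw [hB] at hbB hbB2
  have hx32 : 2 ≤ y ^ 3 := by
    have : y ≤ y ^ 3 := le_self_pow₀ hy1 (by norm_num)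
    linarith
  have hMlo : y ^ 3 ≤ ((⌈y ^ 3⌉₊ : ℕ) : ℝ) := Nat.le_ceil _
  have hMhi : ((⌈y ^ 3⌉₊ : ℕ) : ℝ) ≤ 2 * y ^ 3 := by
    have := (Nat.ceil_lt_add_one (show (0 : ℝ) ≤ y ^ 3 by positivity)).le
    linarith
  obtain ⟨M, hM⟩ : ∃ M : ℕ, M = ⌈y ^ 3⌉₊ := ⟨_, rfl⟩
  rw [← hM] at hMlo hMhi
  have hM2 : 2 ≤ M := by
    have : (2 : ℝ) ≤ M := by linarith
    exact_mod_cast this
  obtain ⟨b₁, r, r₀, R, hbb, hb₁0, hb₀b, hb1, h4r, hrR, hR1, hr₀r, hr₀0, hcr, hRν, hpars⟩ :=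
    hpar y hyx₀ L ν b (M : ℝ) hLp hνa hνb hbB hbB2 hMlo hMhi
  have hcap' : Cap n μ v (S * (1 - 1 / x)) r₀ := by
    refine hcap r₀ (hyr.trans (le_trans ?_ hcr))
    rw [one_mul]
    exact le_self_pow₀ hy1 (by norm_num)
  have hPO0 : PO n L 2 CP (ENNReal.ofReal μ) (fun _ => 0) := by
    rw [hCPd]
    exact Pool.Agent.W753.CB.main n L μ _ hμ
  have hq8 : 8 ≤ q * M := by
    calc 8 = 4 * 2 := by norm_num
      _ ≤ q * M := Nat.mul_le_mul hq4 hM2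
  have hLq : L = ((q * M : ℕ) : ℝ) * b₁ := by
    push_cast
    rw [hLb, hbb]
    ring
  obtain ⟨P, hP⟩ : ∃ P, P = ν ^ 2 * L ^ n := ⟨_, rfl⟩
  have hP0 : 0 < P := by rw [hP]; positivity
  have hSP : 0 < S * P := by positivity
  have hK : Measurable (fun _ : Fin n → ℝ => (0 : ℝ≥0∞)) := measurable_const
  have hup2 : ee n L (ENNReal.ofReal μ) (fun _ => 0) v N ≤
      ENNReal.ofReal ((1 + 1 / x) * (S * P)) := by
    refine hup'.trans (le_of_eq ?_)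
    rw [hP]
    congr 1
    ring
  have hyx' : 1 / y ≤ 1 / x := one_div_le_one_div_of_le hx0 hyx
  have hDle : D / y ≤ D' / x := by
    have h1 : D / y ≤ D / x := div_le_div_of_nonneg_left (by linarith) hx0 hyx
    refine h1.trans (div_le_div_of_nonneg_right ?_ hx0.le)
    rw [hD']
    linarith
  have hDle2 : D / y * (ν ^ 2 * L ^ n) ≤ D' / x * (S * (ν ^ 2 * L ^ n)) := by
    have h1 : D / y ≤ D / x := div_le_div_of_nonneg_left (by linarith) hx0 hyx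
    refine (mul_le_mul_of_nonneg_right h1 (by positivity)).trans ?_
    have h2 : D / x * (ν ^ 2 * L ^ n) = D / S / x * (S * (ν ^ 2 * L ^ n)) := by field_simp
    rw [h2]
    apply mul_le_mul_of_nonneg_right _ (by positivity)
    apply div_le_div_of_nonneg_right _ hx0.le
    rw [hD']
    linarith
  have hb0 : 0 < b := by linarith
  have hr0 : 0 < r := by linarith
  have hR0 : 0 < R := by linarith
  have hMp : (0 : ℝ) < M := by linarith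
  -- bounded wave functions
  have bdd := fun (Φ : (Fin N → Tor n L) → ℂ) (hΦ : IsWf Φ) (E : ℝ) (hE0 : 0 ≤ E)
      (hEe : enN (ENNReal.ofReal μ) (fun _ => 0) v Φ = ENNReal.ofReal E)
      (hE : E ≤ (1 + 3 / x) * (S * (ν ^ 2 * L ^ n))) =>
    bddQ hKQ hONE hPO2 hTF hBLK hCRD (D := D') (c := 3) (CA := CA) hμ hv hS0 hx1
      hcap' hPO0 hCP.le hCA hr₀0
      hr₀r hrR hR1 h4r hb1 (by omega : 2 ≤ q) (by omega : 1 ≤ M) hLb hbb hb₁0 hν0
      (fun F hF => (hla L b₁ (q * M) (ENNReal.ofReal μ) (fun _ => 0) hb₀b hLq hq8 hK hPO0 F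
        hF).1)
      hD'1 (by norm_num) hcx (fun γ₀ hγ hγS => by
        obtain ⟨p1, p2, p3, p4⟩ := hpars γ₀ hγ hγS
        refine ⟨le_trans ?_ (p1.trans hDle), p2.trans hDle, p3.trans hDle2,
          le_trans ?_ (p4.trans hDle2)⟩
        · gcongr
        · have h1 : 1 / (1 / x) ≤ 1 / (1 / y) := by
            rw [one_div_one_div, one_div_one_div]
            exact hyx
          gcongr)
      hNν hΦ hE0 hEe hE
  rw [← hC₁] at bdd
  -- the energy of the given wave function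
  have hΨe : enN (ENNReal.ofReal μ) (fun _ => 0) v Ψ ≤
      ENNReal.ofReal ((1 + 2 / x) * (S * P)) := by
    have h1 := near_ee hK hv ENNReal.ofReal_ne_top hnear
    refine h1.trans ((add_le_add hup2 le_rfl).trans ?_)
    rw [← ENNReal.ofReal_add (by positivity) (by positivity)]
    apply ENNReal.ofReal_le_ofReal
    have h2' : ρ ^ 2 ≤ (2 * ν) ^ 2 := pow_le_pow_left₀ hρ0.le (by linarith only [hν1]) 2
    have h2 : ρ ^ 2 ≤ 4 * ν ^ 2 := by rw [mul_pow] at h2'; linarith only [h2']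
    have h3 : S / (4 * x) * ρ ^ 2 * L ^ n ≤ S / (4 * x) * (4 * ν ^ 2) * L ^ n := by gcongr
    rw [hP]
    calc (1 + 1 / x) * (S * (ν ^ 2 * L ^ n)) + S / (4 * x) * ρ ^ 2 * L ^ n ≤
          (1 + 1 / x) * (S * (ν ^ 2 * L ^ n)) + S / (4 * x) * (4 * ν ^ 2) * L ^ n :=
          add_le_add le_rfl h3
      _ = _ := by
          field_simp
          ring
  have hfinite : enN (ENNReal.ofReal μ) (fun _ => 0) v Ψ ≠ ⊤ :=
    ne_top_of_le_ne_top ENNReal.ofReal_ne_top hΨe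
  intro s hs hs1 w hw
  obtain ⟨δ, hδ⟩ : ∃ δ : ℝ, δ = 1 / x * (S * P) := ⟨_, rfl⟩
  have hδ0 : 0 < δ := by rw [hδ]; positivity
  refine trunc3 (ε := δ) hδ0 hΨ hfinite (pr L w) fun Ψ' hΨ' hΨe' => ?_
  have h1 : enN (ENNReal.ofReal μ) (fun _ => 0) v Ψ' ≤
      ENNReal.ofReal ((1 + 3 / x) * (S * (ν ^ 2 * L ^ n))) := by
    refine hΨe'.trans ((add_le_add hΨe le_rfl).trans ?_)
    rw [← ENNReal.ofReal_add (by positivity) hδ0.le]
    apply ENNReal.ofReal_le_ofReal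
    rw [← hP, hδ]
    apply le_of_eq
    ring
  have h2 : enN (ENNReal.ofReal μ) (fun _ => 0) v Ψ' ≠ ⊤ :=
    ne_top_of_le_ne_top ENNReal.ofReal_ne_top h1
  refine (bdd Ψ' hΨ' _ ENNReal.toReal_nonneg (ENNReal.ofReal_toReal h2).symm
    (ENNReal.toReal_le_of_le_ofReal (by positivity) h1) s w hs hw).trans
    (ENNReal.ofReal_le_ofReal ?_)
  rw [hNν]
  refine fG_dn hS0 hC₁0 hμ hLn hν0 hx1.le ?_ ?_ (by rw [← hQ, ← hκ]; exact hQx)
  · calc s ^ 2 * ν ≤ (Λ * Z) ^ 2 * (1 / Z ^ 2) :=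
          mul_le_mul (pow_le_pow_left₀ hs hs1 2) hνZ hν0.le (by positivity)
      _ = Λ ^ 2 := by field_simp
  · refine hRν.trans ?_
    refine one_div_le_one_div_of_le hx0 (hyx.trans ?_)
    exact le_self_pow₀ hy1 (by norm_num)

end

end Pool.Agent.U327.BG
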