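import Pool.Agent.U327.BG.CoreN

/-!
# The differences on all scales, with a rate
-/

set_option autoImplicit false

open MeasureTheory
open scoped ENNReal

namespace Pool.Agent.U327.BG

open Pool.Agent.W761.CB Pool.Agent.W761.CC Pool.Agent.TH268.CC Pool.Agent.Y656

noncomputable section

/-- the last step -/
lemma fM_dn {n : ℕ} {S C₁ ν ρ V R s μ x Q : ℝ} (hS : 0 < S)
    (hC₁ : 0 < C₁) (hμ : 0 < μ) (hV : 0 < V) (hν : 0 < ν) (hx : 1 ≤ x) (hνρ : ν ≤ ρ)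
    (hR : R ^ 2 * ν ≤ 1 / x ^ 2) (hQ : Q = 2 * n * C₁ * S + 16 * n * S) :
    (2 * n * s ^ 2 * (C₁ / x * (S * (ν ^ 2 * V))) +
      8 * n * R ^ 2 * (2 * (S * (ν ^ 2 * V)))) / μ ≤
      Q / μ * (s ^ 2 * ρ / x + 1 / x ^ 2) * (ν * V) := by
  have hx0 : 0 < x := by linarith
  have hρ : 0 < ρ := by linarith
  have hN : 0 < ν * V := by positivity
  have h4 : 2 * n * s ^ 2 * (C₁ / x * (S * (ν ^ 2 * V))) ≤
      2 * n * C₁ * S * (s ^ 2 * ρ / x) * (ν * V) := by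
    calc 2 * n * s ^ 2 * (C₁ / x * (S * (ν ^ 2 * V))) =
          2 * n * C₁ * S * (s ^ 2 * ν / x) * (ν * V) := by ring
      _ ≤ _ := by gcongr
  have h5 : 8 * n * R ^ 2 * (2 * (S * (ν ^ 2 * V))) ≤ 16 * n * S * (1 / x ^ 2) * (ν * V) := by
    calc 8 * n * R ^ 2 * (2 * (S * (ν ^ 2 * V))) = 16 * n * S * (R ^ 2 * ν) * (ν * V) := by
          ring
      _ ≤ _ := by gcongr
  have h6 : 0 ≤ 2 * n * C₁ * S * (1 / x ^ 2) * (ν * V) := by positivity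
  have h7 : 0 ≤ 16 * n * S * (s ^ 2 * ρ / x) * (ν * V) := by positivity
  have h8 : Q / μ * (s ^ 2 * ρ / x + 1 / x ^ 2) * (ν * V) =
      (2 * n * C₁ * S * (s ^ 2 * ρ / x) * (ν * V) + 16 * n * S * (1 / x ^ 2) * (ν * V) +
        2 * n * C₁ * S * (1 / x ^ 2) * (ν * V) + 16 * n * S * (s ^ 2 * ρ / x) * (ν * V)) / μ := by
    rw [hQ]
    field_simp
    ring
  rw [h8]
  apply div_le_div_of_nonneg_right _ hμ.le
  linarith

/-- The differences on all scales, in terms of a power of the density. -/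
theorem diffAll (n m : ℕ) (μ R₀ : ℝ) (v : ℝ → ℝ≥0∞) (hn : 3 ≤ n) (hm : m = n ^ 3 + 4 * n ^ 2)
    (hμ : 0 < μ) (hv : Measurable v) (hvR : ∀ r, R₀ < r → v r = 0)
    (hv0 : ∫⁻ z : Fin n → ℝ, v (el z) ≠ 0) :
    ∃ X Cf : ℝ, 2 ≤ X ∧ 0 < Cf ∧ ∀ x Z ρ : ℝ, X ≤ x → Z = x ^ m → ρ = 1 / Z ^ 2 →
      ∀ (L : ℝ) [Fact (0 < L)], Z ≤ L →
      ∀ N : ℕ, ρ / 2 * L ^ n ≤ N → (N : ℝ) ≤ ρ * L ^ n →
      ∀ Ψ : (Fin N → Tor n L) → ℂ, IsWf2 Ψ →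
        (∀ Φ : (Fin N → Tor n L) → ℂ, IsWf Φ → enN (ENNReal.ofReal μ) (fun _ => 0) v Ψ ≤
          enN (ENNReal.ofReal μ) (fun _ => 0) v Φ +
            ENNReal.ofReal (ρ ^ 2 / x * L ^ n)) →
        ∀ s : ℝ, 0 ≤ s → ∀ w ∈ cube n s,
          Dn Ψ (pr L w) ≤ ENNReal.ofReal (Cf * (s ^ 2 * ρ / x + 1 / x ^ 2) * N) := by
  have hTF := Pool.Agent.W135.CB.proof_tf
  have hFIB := Pool.Agent.W131.CB.fib
  have hPO2 := Pool.Agent.W880.CB.po2 hFIB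
  have hBLK := Pool.Agent.W374.CB2.Blk.blk hTF
  have hLA1 := Pool.Agent.W372.CB.main hTF hBLK
  have hLA := Pool.Agent.W571.CB.La.proof_la hTF hBLK hLA1 hFIB
  have hKQ := Pool.Agent.W214.CC.main
  have hPOIC := Pool.Agent.W975.CC.main
  have hONE := Pool.Agent.W366.CC.One.one
  have hCRD := Pool.Agent.W688.CC.crd hBLK
  have hn1 : 1 ≤ n := by omega
  have hn3 : (3 : ℝ) ≤ n := by exact_mod_cast hn
  obtain ⟨hmB, hmC⟩ := m_natN hn hm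
  have hvt0 : ∫⁻ z in {z : Fin n → ℝ | R₀ < el z}, v (el z) = 0 := by
    rw [setLIntegral_congr_fun (g := fun _ => 0)
      (measurableSet_lt measurable_const Pool.Agent.W612.CC.el_meas) fun z hz => hvR _ hz]
    simp
  have hvt : ∫⁻ z in {z : Fin n → ℝ | R₀ < el z}, v (el z) ≠ ⊤ := by
    rw [hvt0]
    exact ENNReal.zero_ne_top
  have hG0 : 0 < scat n μ v := gposH μ R₀ v hn hμ hv hv0 hvt
  obtain ⟨Cc, hCc, hcapR⟩ := capR hKQ hPOIC μ R₀ v hn hμ hv hvR hG0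
  obtain ⟨x₁, hx₁, hupL⟩ := upL n μ R₀ v hn hμ hv hvR hG0
  obtain ⟨S, hS⟩ : ∃ S : ℝ, S = scat n μ v / 2 := ⟨_, rfl⟩
  have hS0 : 0 < S := by rw [hS]; linarith
  rw [← hS] at hcapR hupL
  obtain ⟨CP, hCPd⟩ : ∃ CP : ℝ, CP = n * 2 ^ n / μ := ⟨_, rfl⟩
  have hCP : 0 < CP := by rw [hCPd]; positivity
  obtain ⟨CA, b₀, hCA, hb₀, hla⟩ := hLA n 2 CP v hn1 two_pos (by linarith) hCP.le hv hv0
  obtain ⟨D, x₀, hD, hx₀, hpar⟩ := parB n hn S μ CP CA b₀ Cc hS0 hμ hCP.le hCA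
  obtain ⟨D', hD'⟩ : ∃ D' : ℝ, D' = D + D / S := ⟨_, rfl⟩
  have hDS : 0 < D / S := by positivity
  have hD'1 : 1 ≤ D' := by rw [hD']; linarith
  obtain ⟨c, hc⟩ : ∃ c : ℝ, c = 2 + 4 / S := ⟨_, rfl⟩
  have h4S : 0 < 4 / S := by positivity
  have hc0 : 0 < c := by rw [hc]; positivity
  obtain ⟨C₁, hC₁⟩ : ∃ C₁, C₁ = c + 4 + 6 * D' := ⟨_, rfl⟩
  have hC₁0 : 0 < C₁ := by rw [hC₁]; linarith
  obtain ⟨Q, hQ⟩ : ∃ Q, Q = 2 * n * C₁ * S + 16 * n * S := ⟨_, rfl⟩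
  have hQ0 : 0 < Q := by rw [hQ]; positivity
  obtain ⟨X, hX⟩ : ∃ X, X = x₀ + x₁ + c := ⟨_, rfl⟩
  have hX2 : 2 ≤ X := by rw [hX]; linarith
  have hX0 : 0 < X := by linarith
  refine ⟨X, Q / μ, hX2, by positivity, ?_⟩
  intro x Z ρ hxX hZx hρ L _ hL N hN1 hN2 Ψ hΨ hnear
  rw [hX] at hxX
  have hxx₀ : x₀ ≤ x := by linarith
  have hxx₁ : x₁ ≤ x := by linarith
  have hxc : c ≤ x := by linarith
  have hx4 : 4 ≤ x := by linarith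
  have hx1 : 1 < x := by linarith
  have hx0 : 0 < x := by linarith
  clear hxX
  have hZ1 : 1 ≤ Z := by rw [hZx]; exact one_le_pow₀ hx1.le
  have hZ0 : 0 < Z := by linarith
  have hρ0 : 0 < ρ := by rw [hρ]; positivity
  have hLp : 0 < L := Fact.out
  have hLn : 0 < L ^ n := by positivity
  obtain ⟨ν, hν⟩ : ∃ ν : ℝ, ν = N / L ^ n := ⟨_, rfl⟩
  have hν1 : ρ / 2 ≤ ν := by rw [hν, le_div_iff₀ hLn]; exact hN1
  have hν2 : ν ≤ ρ := by rw [hν, div_le_iff₀ hLn]; exact hN2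
  have hν0 : 0 < ν := by linarith
  have hNν : (N : ℝ) = ν * L ^ n := by rw [hν]; field_simp
  have hx2m : x ^ (2 * (n ^ 3 + 4 * n ^ 2)) = Z ^ 2 := by
    rw [hZx, ← hm, ← pow_mul]
    congr 1
    ring
  have hxmZ : x ^ (n ^ 3 + 4 * n ^ 2) = Z := by rw [hZx, hm]
  have hνa : 1 / 2 / x ^ (2 * (n ^ 3 + 4 * n ^ 2)) ≤ ν := by
    rw [hx2m]
    refine le_trans (le_of_eq ?_) hν1
    rw [hρ]
    ring
  have hνb : ν ≤ 1 / x ^ (2 * (n ^ 3 + 4 * n ^ 2)) := by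
    rw [hx2m, ← hρ]
    exact hν2
  have hup := hupL x hxx₁ L N ν (by rw [hxmZ]; exact hL) hν hνa hνb
  -- the blocks
  obtain ⟨B, hB⟩ : ∃ B : ℝ, B = x ^ (2 * n ^ 2 + 8 * n + 2) := ⟨_, rfl⟩
  have hB0 : 0 < B := by rw [hB]; positivity
  have hBL : B * x ≤ L := by
    refine le_trans ?_ hL
    rw [hB, ← pow_succ, hZx]
    exact pow_le_pow_right₀ hx1.le hmB
  obtain ⟨q, b, hq4, hLb, hbB, hbB2⟩ := floor_blk hB0 hx4 hBL
  rw [hB] at hbB hbB2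
  have hx31 : 1 ≤ x ^ 3 := one_le_pow₀ hx1.le
  have hx32 : 2 ≤ x ^ 3 := by
    have : x ≤ x ^ 3 := le_self_pow₀ hx1.le (by norm_num)
    linarith
  have hMlo : x ^ 3 ≤ ((⌈x ^ 3⌉₊ : ℕ) : ℝ) := Nat.le_ceil _
  have hMhi : ((⌈x ^ 3⌉₊ : ℕ) : ℝ) ≤ 2 * x ^ 3 := by
    have := (Nat.ceil_lt_add_one (show (0 : ℝ) ≤ x ^ 3 by positivity)).le
    linarith
  obtain ⟨M, hM⟩ : ∃ M : ℕ, M = ⌈x ^ 3⌉₊ := ⟨_, rfl⟩
  rw [← hM] at hMlo hMhi
  have hM2 : 2 ≤ M := by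
    have : (2 : ℝ) ≤ M := by linarith
    exact_mod_cast this
  obtain ⟨b₁, r, r₀, R, hbb, hb₁0, hb₀b, hb1, h4r, hrR, hR1, hr₀r, hr₀0, hcr, hRν, hpars⟩ :=
    hpar x hxx₀ L ν b (M : ℝ) hLp hνa hνb hbB hbB2 hMlo hMhi
  have hux0 : 0 < 1 / x := by positivity
  have hux1 : 1 / x ≤ 1 := by rw [div_le_one hx0]; exact hx1.le
  have hcap' : Cap n μ v (S * (1 - 1 / x)) r₀ := by
    refine hcapR (1 / x) hux0 hux1 r₀ ?_
    refine le_trans (le_of_eq ?_) hcr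
    field_simp
  have hPO0 : PO n L 2 CP (ENNReal.ofReal μ) (fun _ => 0) := by
    rw [hCPd]
    exact Pool.Agent.W753.CB.main n L μ _ hμ
  have hq8 : 8 ≤ q * M := by
    calc 8 = 4 * 2 := by norm_num
      _ ≤ q * M := Nat.mul_le_mul hq4 hM2
  have hLq : L = ((q * M : ℕ) : ℝ) * b₁ := by
    push_cast
    rw [hLb, hbb]
    ring
  obtain ⟨P, hP⟩ : ∃ P, P = ν ^ 2 * L ^ n := ⟨_, rfl⟩
  have hP0 : 0 < P := by rw [hP]; positivity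
  have hSP : 0 < S * P := by positivity
  have hK : Measurable (fun _ : Fin n → ℝ => (0 : ℝ≥0∞)) := measurable_const
  have hcx : c / x ≤ 1 := by rw [div_le_one hx0]; exact hxc
  have hup' : ee n L (ENNReal.ofReal μ) (fun _ => 0) v N ≤
      ENNReal.ofReal ((1 + 1 / x) * (S * P)) := by
    refine hup.trans (le_of_eq ?_)
    rw [hP]
    congr 1
    ring
  have hDle : D / x ≤ D' / x := by
    apply div_le_div_of_nonneg_right _ hx0.le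
    rw [hD']
    linarith
  have hDle2 : D / x * (ν ^ 2 * L ^ n) ≤ D' / x * (S * (ν ^ 2 * L ^ n)) := by
    have h1 : D / x * (ν ^ 2 * L ^ n) = D / S / x * (S * (ν ^ 2 * L ^ n)) := by field_simp
    rw [h1]
    apply mul_le_mul_of_nonneg_right _ (by positivity)
    apply div_le_div_of_nonneg_right _ hx0.le
    rw [hD']
    linarith
  -- bounded wave functions
  have bdd := fun (Φ : (Fin N → Tor n L) → ℂ) (hΦ : IsWf Φ) (E : ℝ) (hE0 : 0 ≤ E)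
      (hEe : enN (ENNReal.ofReal μ) (fun _ => 0) v Φ = ENNReal.ofReal E)
      (hE : E ≤ (1 + c / x) * (S * (ν ^ 2 * L ^ n))) =>
    bddQ hKQ hONE hPO2 hTF hBLK hCRD (D := D') (c := c) (CA := CA) hμ hv hS0 hx1
      hcap' hPO0 hCP.le hCA hr₀0
      hr₀r hrR hR1 h4r hb1 (by omega : 2 ≤ q) (by omega : 1 ≤ M) hLb hbb hb₁0 hν0
      (fun F hF => (hla L b₁ (q * M) (ENNReal.ofReal μ) (fun _ => 0) hb₀b hLq hq8 hK hPO0 F
        hF).1)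
      hD'1 hc0.le hcx (fun γ₀ hγ hγS => by
        obtain ⟨p1, p2, p3, p4⟩ := hpars γ₀ hγ hγS
        exact ⟨p1.trans hDle, p2.trans hDle, p3.trans hDle2, p4.trans hDle2⟩)
      hNν hΦ hE0 hEe hE
  rw [← hC₁] at bdd
  -- the energy of the given wave function
  have hΨe : enN (ENNReal.ofReal μ) (fun _ => 0) v Ψ ≤
      ENNReal.ofReal ((1 + (1 + 4 / S) / x) * (S * P)) := by
    have h1 := near_ee hK hv ENNReal.ofReal_ne_top hnear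
    refine h1.trans ((add_le_add hup' le_rfl).trans ?_)
    rw [← ENNReal.ofReal_add (by positivity) (by positivity)]
    apply ENNReal.ofReal_le_ofReal
    have h2' : ρ ^ 2 ≤ (2 * ν) ^ 2 := pow_le_pow_left₀ hρ0.le (by linarith only [hν1]) 2
    have h2 : ρ ^ 2 ≤ 4 * ν ^ 2 := by rw [mul_pow] at h2'; linarith only [h2']
    have h3 : ρ ^ 2 / x * L ^ n ≤ 4 * ν ^ 2 / x * L ^ n := by gcongr
    rw [hP]
    calc (1 + 1 / x) * (S * (ν ^ 2 * L ^ n)) + ρ ^ 2 / x * L ^ n ≤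
          (1 + 1 / x) * (S * (ν ^ 2 * L ^ n)) + 4 * ν ^ 2 / x * L ^ n :=
          add_le_add le_rfl h3
      _ = _ := by
          field_simp
          ring
  have hfinite : enN (ENNReal.ofReal μ) (fun _ => 0) v Ψ ≠ ⊤ :=
    ne_top_of_le_ne_top ENNReal.ofReal_ne_top hΨe
  intro s hs w hw
  obtain ⟨δ, hδ⟩ : ∃ δ : ℝ, δ = 1 / x * (S * P) := ⟨_, rfl⟩
  have hδ0 : 0 < δ := by rw [hδ]; positivity
  refine trunc3 (ε := δ) hδ0 hΨ hfinite (pr L w) fun Ψ' hΨ' hΨe' => ?_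
  have h1 : enN (ENNReal.ofReal μ) (fun _ => 0) v Ψ' ≤
      ENNReal.ofReal ((1 + c / x) * (S * (ν ^ 2 * L ^ n))) := by
    refine hΨe'.trans ((add_le_add hΨe le_rfl).trans ?_)
    rw [← ENNReal.ofReal_add (by positivity) hδ0.le]
    apply ENNReal.ofReal_le_ofReal
    rw [← hP, hδ, hc]
    apply le_of_eq
    ring
  have h2 : enN (ENNReal.ofReal μ) (fun _ => 0) v Ψ' ≠ ⊤ :=
    ne_top_of_le_ne_top ENNReal.ofReal_ne_top h1
  refine (bdd Ψ' hΨ' _ ENNReal.toReal_nonneg (ENNReal.ofReal_toReal h2).symm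
    (ENNReal.toReal_le_of_le_ofReal (by positivity) h1) s w hs hw).trans
    (ENNReal.ofReal_le_ofReal ?_)
  rw [hNν]
  exact fM_dn hS0 hC₁0 hμ hLn hν0 hx1.le hν2 hRν hQ

end

end Pool.Agent.U327.BG
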