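import Pool.Agent.U327.BG.CoreG
import Pool.Agent.Y656.Loc

/-!
# Off-diagonal order at multiples of the healing length: the final form
-/

set_option autoImplicit false

open MeasureTheory
open scoped ENNReal

namespace Pool.Agent.U327.BG

open Pool.Agent.W761.CB Pool.Agent.W761.CC Pool.Agent.TH268.CC Pool.Agent.Y656
open Pool.Agent.W74.CC (rep rep_mem pr_rep)

noncomputable section

/-- Off-diagonal order at multiples of the healing length. -/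
theorem offG (n : ℕ) (μ R₀ : ℝ) (v : ℝ → ℝ≥0∞) (hn : 3 ≤ n) (hμ : 0 < μ) (hv : Measurable v)
    (hvt : ∫⁻ z in {z : Fin n → ℝ | R₀ < el z}, v (el z) ≠ ⊤)
    (hv0 : ∫⁻ z : Fin n → ℝ, v (el z) ≠ 0) (ε Λ : ℝ) (hε : 0 < ε) (hΛ : 0 < Λ) :
    ∃ ρ₀ δ : ℝ, 0 < ρ₀ ∧ 0 < δ ∧ ∀ ρ ℓ : ℝ, 0 < ρ → ρ ≤ ρ₀ → ℓ = Λ * ρ ^ (-(1 / 2) : ℝ) →
      ∀ (L : ℝ) [Fact (0 < L)], ρ ^ (-(1 / 2) : ℝ) ≤ L →
      ∀ N : ℕ, ρ / 2 * L ^ n ≤ N → (N : ℝ) ≤ ρ * L ^ n →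
      ∀ Ψ : (Fin N → Tor n L) → ℂ, IsWf2 Ψ →
        (∀ Φ : (Fin N → Tor n L) → ℂ, IsWf Φ → enN (ENNReal.ofReal μ) (fun _ => 0) v Ψ ≤
          enN (ENNReal.ofReal μ) (fun _ => 0) v Φ + ENNReal.ofReal (δ * ρ ^ 2 * L ^ n)) →
        (∀ z : Fin n → ℝ, (∀ c, |z c| ≤ ℓ) → (1 - ε) * N ≤ odN Ψ z) ∧
        (∀ q : ℕ, 1 ≤ q → L / q ≤ ℓ → (1 - ε) * N ≤ locN q Ψ) ∧
        (L ≤ ℓ → (1 - ε) * N ≤ condN Ψ) := by
  obtain ⟨m, hm⟩ : ∃ m : ℕ, m = n ^ 3 + 4 * n ^ 2 := ⟨_, rfl⟩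
  obtain ⟨-, hm3⟩ := m_natN hn hm
  have hm0 : (0 : ℝ) < m := by exact_mod_cast (by omega : 0 < m)
  have h2m : 2 * m ≠ 0 := by omega
  obtain ⟨X, δ, hX, hδ, hmain⟩ := coreG n m μ R₀ v hn hm hμ hv hvt hv0 ε Λ hε
  have hX0 : 0 < X := by linarith
  refine ⟨1 / X ^ (2 * m), δ, by positivity, hδ, ?_⟩
  intro ρ ℓ hρ hρ1 hℓ L _ hL N hN1 hN2 Ψ hΨ hnear
  obtain ⟨y, hy⟩ : ∃ y : ℝ, y = ρ ^ (-(1 / (2 * m)) : ℝ) := ⟨_, rfl⟩
  have hy0 : 0 < y := by rw [hy]; positivity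
  have hym : ρ ^ (-(1 / 2) : ℝ) = y ^ m := by
    rw [hy, ← Real.rpow_natCast, ← Real.rpow_mul hρ.le]
    congr 1
    field_simp
  have hy2m : y ^ (2 * m) = 1 / ρ := by
    rw [hy, ← Real.rpow_natCast, ← Real.rpow_mul hρ.le, one_div ρ, ← Real.rpow_neg_one]
    congr 1
    push_cast
    field_simp
  have hXy : X ≤ y := by
    have h1 : X ^ (2 * m) ≤ y ^ (2 * m) := by
      rw [hy2m, le_one_div (by positivity) hρ]
      exact hρ1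
    exact (pow_le_pow_iff_left₀ hX0.le hy0.le h2m).1 h1
  have hZρ : ρ = 1 / (y ^ m) ^ 2 := by
    rw [← pow_mul, mul_comm m 2, hy2m, one_div_one_div]
  rw [hym] at hL hℓ
  have hℓ0 : 0 ≤ ℓ := by rw [hℓ]; positivity
  have c3 := hmain y _ ρ hXy rfl hZρ L hL N hN1 hN2 Ψ hΨ hnear
  rw [← hℓ] at c3
  have hLp : 0 < L := Fact.out
  have h2n : ε * N / 2 ^ n ≤ ε * N := div_le_self (by positivity) (one_le_pow₀ (by norm_num))
  refine ⟨?_, ?_, ?_⟩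
  · intro z hz
    have h2 := od_of_Dn hΨ (δ := ε * N / 2 ^ n) (by positivity) (c3 ℓ hℓ0 le_rfl z hz)
    linarith
  · intro q hq hLq
    have h2 := loc_of_Dn hΨ hq (δ := ε * N / 2 ^ n) (by positivity)
      (fun w hw => c3 (L / q) (by positivity) hLq w hw)
    have h3 : (2 : ℝ) ^ n * (ε * N / 2 ^ n) = ε * N := by field_simp
    rw [h3] at h2
    linarith
  · intro hLs
    have h2 := cond_of_Dn hΨ (δ := ε * N / 2 ^ n) (by positivity) (fun h => by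
      have h3 := c3 (L / 2) (by positivity) (by linarith) (rep h) (fun c => by
        have h4 := rep_mem h c
        rw [abs_le]
        exact ⟨by linarith [h4.1], h4.2⟩)
      rw [pr_rep] at h3
      exact h3)
    linarith

end

end Pool.Agent.U327.BG
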