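import Pool.Agent.U327.BG.Wav

/-!
# The momentum distribution and the differences
-/

set_option autoImplicit false
set_option linter.unusedSectionVars false

open MeasureTheory
open scoped ENNReal

namespace Pool.Agent.U327.BG

open Pool.Agent.W761.CB Pool.Agent.Y656

noncomputable section

variable {n : ℕ} {L : ℝ} [Fact (0 < L)] {N : ℕ}

/-- the number of the particles with momentum `2 π k / L`, that is `∑_i ‖P_i Ψ‖²`, where
`(P_i Ψ)(x) = L^(-n) exp (2 π i k · x_i / L) ∫ exp (-2 π i k · y / L) Ψ (x with x_i replaced by y) dy`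
is the projection on the plane wave in the variable `i` -/
def momN (Ψ : (Fin N → Tor n L) → ℂ) (k : Fin n → ℤ) : ℝ≥0∞ :=
  ∑ i : Fin N, ∫⁻ x, ‖(((L ^ n)⁻¹ : ℝ) : ℂ) * wav k (x i) *
    ∫ y, (starRingEnd ℂ) (wav k y) * Ψ (Function.update x i y)‖ₑ ^ 2

lemma upd2_meas (i : Fin N) : Measurable fun p : (Fin N → Tor n L) × Tor n L =>
    Function.update p.1 i p.2 := by
  rw [measurable_pi_iff]
  intro j
  by_cases hj : j = i
  · subst hj
    simp only [Function.update_self]
    exact measurable_snd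
  · simp only [Function.update_of_ne hj]
    exact (measurable_pi_apply j).comp measurable_fst

lemma swap_all {f : (Fin N → Tor n L) → ℝ≥0∞} (hf : Measurable f) (i : Fin N) :
    ∫⁻ x, ∫⁻ y, f (Function.update x i y) = ENNReal.ofReal (L ^ n) * ∫⁻ x, f x := by
  have hvol : volume (Set.univ : Set (Tor n L)) = ENNReal.ofReal (L ^ n) :=
    (Pool.Agent.W135.CB.proof_tf n L).1
  have h := swap_box hf i (B := Set.univ) MeasurableSet.univ
  simpa [hvol] using h

/-- one variable -/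
lemma mom_one {f : Tor n L → ℂ} (hf : Measurable f) (hf2 : ∫⁻ x, ‖f x‖ₑ ^ 2 ≠ ⊤) (h : Tor n L)
    (A : Finset (Fin n → ℤ)) :
    ∑ k ∈ A, ‖wav k h - 1‖ₑ ^ 2 * ‖∫ y, (starRingEnd ℂ) (wav k y) * f y‖ₑ ^ 2 ≤
      ENNReal.ofReal (L ^ n) * ∫⁻ y, ‖f (y + h) - f y‖ₑ ^ 2 := by
  have hL : 0 < L := Fact.out
  have hV : 0 < L ^ n := by positivity
  have hvol : volume (Set.univ : Set (Tor n L)) = ENNReal.ofReal (L ^ n) :=
    (Pool.Agent.W135.CB.proof_tf n L).1
  have hfin : IsFiniteMeasure (volume : Measure (Tor n L)) :=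
    ⟨by rw [hvol]; exact ENNReal.ofReal_lt_top⟩
  by_cases hg : ∫⁻ y, ‖f (y + h) - f y‖ₑ ^ 2 = ⊤
  · rw [hg, ENNReal.mul_top (by rw [ne_eq, ENNReal.ofReal_eq_zero]; linarith)]
    exact le_top
  have hfm : MemLp f 2 (volume : Measure (Tor n L)) := by
    refine ⟨hf.aestronglyMeasurable, ?_⟩
    rw [eLpNorm_lt_top_iff_lintegral_rpow_enorm_lt_top (by norm_num) (by norm_num)]
    have : ∀ x, ‖f x‖ₑ ^ (ENNReal.toReal 2) = ‖f x‖ₑ ^ 2 := fun x => by
      rw [ENNReal.toReal_ofNat, ENNReal.rpow_ofNat]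
    simp_rw [this]
    exact lt_top_iff_ne_top.2 hf2
  have hfi : Integrable f (volume : Measure (Tor n L)) := hfm.integrable (by norm_num)
  have hwi : ∀ k : Fin n → ℤ, Integrable (fun y => (starRingEnd ℂ) (wav k y) * f y)
      (volume : Measure (Tor n L)) := by
    intro k
    refine hfi.bdd_mul (c := 1) ?_ ?_
    · exact (Complex.continuous_conj.comp (wav_cont k)).aestronglyMeasurable
    · exact Filter.Eventually.of_forall fun x => by rw [RCLike.norm_conj, wav_norm]
  have e1 : ∀ k : Fin n → ℤ, ∀ y, (starRingEnd ℂ) (wav k y) * f (y + h) =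
      wav k h * ((starRingEnd ℂ) (wav k (y + h)) * f (y + h)) := by
    intro k y
    rw [wav_add, map_mul]
    have := wav_conj_mul k h
    calc (starRingEnd ℂ) (wav k y) * f (y + h) =
          ((starRingEnd ℂ) (wav k h) * wav k h) * ((starRingEnd ℂ) (wav k y) * f (y + h)) := by
          rw [this, one_mul]
      _ = _ := by ring
  have hwi2 : ∀ k : Fin n → ℤ, Integrable (fun y => (starRingEnd ℂ) (wav k y) * f (y + h))
      (volume : Measure (Tor n L)) := by
    intro k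
    simp_rw [e1 k]
    exact ((hwi k).comp_add_right h).const_mul _
  have key : ∀ k : Fin n → ℤ, (wav k h - 1) * ∫ y, (starRingEnd ℂ) (wav k y) * f y =
      ∫ y, (starRingEnd ℂ) (wav k y) * (f (y + h) - f y) := by
    intro k
    have h1 : ∀ y, (starRingEnd ℂ) (wav k y) * (f (y + h) - f y) =
        (starRingEnd ℂ) (wav k y) * f (y + h) - (starRingEnd ℂ) (wav k y) * f y := fun y => by ring
    simp_rw [h1]
    rw [integral_sub (hwi2 k) (hwi k)]
    simp_rw [e1 k]
    rw [integral_const_mul,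
      integral_add_right_eq_self (fun y : Tor n L => (starRingEnd ℂ) (wav k y) * f y) h]
    ring
  have hgm : Measurable fun y => f (y + h) - f y :=
    (hf.comp (measurable_add_const h)).sub hf
  refine le_trans (le_of_eq ?_) (bessel hgm hg A)
  refine Finset.sum_congr rfl fun k _ => ?_
  rw [← key k, enorm_mul, mul_pow]

/-- the momentum distribution and the differences -/
theorem mom_Dn {Ψ : (Fin N → Tor n L) → ℂ} (hm : Measurable Ψ) (h1 : ∫⁻ x, ‖Ψ x‖ₑ ^ 2 ≠ ⊤)
    (h : Tor n L) (A : Finset (Fin n → ℤ)) :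
    ∑ k ∈ A, ‖wav k h - 1‖ₑ ^ 2 * momN Ψ k ≤ Dn Ψ h := by
  have hL : 0 < L := Fact.out
  have hV : 0 < L ^ n := by positivity
  have hvol : volume (Set.univ : Set (Tor n L)) = ENNReal.ofReal (L ^ n) :=
    (Pool.Agent.W135.CB.proof_tf n L).1
  have hfin : IsFiniteMeasure (volume : Measure (Tor n L)) :=
    ⟨by rw [hvol]; exact ENNReal.ofReal_lt_top⟩
  obtain ⟨a, ha⟩ : ∃ a : ℝ≥0∞, a = ‖(((L ^ n)⁻¹ : ℝ) : ℂ)‖ₑ ^ 2 := ⟨_, rfl⟩
  have hae : a = ENNReal.ofReal (((L ^ n)⁻¹) ^ 2) := by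
    rw [ha, ← ofReal_norm, Complex.norm_real, Real.norm_eq_abs, abs_of_pos (by positivity),
      ENNReal.ofReal_pow (by positivity)]
  have hat : a ≠ ⊤ := by rw [hae]; exact ENNReal.ofReal_ne_top
  unfold momN Dn
  simp_rw [Finset.mul_sum]
  rw [Finset.sum_comm]
  refine Finset.sum_le_sum fun i _ => ?_
  -- the inner integral
  obtain ⟨F, hF⟩ : ∃ F : (Fin n → ℤ) → (Fin N → Tor n L) → ℂ, F = fun k x =>
    ∫ y, (starRingEnd ℂ) (wav k y) * Ψ (Function.update x i y) := ⟨_, rfl⟩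
  have hFm : ∀ k, Measurable (F k) := by
    intro k
    rw [hF]
    have h2 : StronglyMeasurable fun p : (Fin N → Tor n L) × Tor n L =>
        (starRingEnd ℂ) (wav k p.2) * Ψ (Function.update p.1 i p.2) := by
      refine Measurable.stronglyMeasurable ?_
      exact (((Complex.continuous_conj.comp (wav_cont k)).measurable).comp measurable_snd).mul
        (hm.comp (upd2_meas i))
    exact h2.integral_prod_right'.measurable
  have hEq : ∀ k x, ‖(((L ^ n)⁻¹ : ℝ) : ℂ) * wav k (x i) *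
      ∫ y, (starRingEnd ℂ) (wav k y) * Ψ (Function.update x i y)‖ₑ ^ 2 = a * ‖F k x‖ₑ ^ 2 := by
    intro k x
    have hw : ‖wav k (x i)‖ₑ = 1 := by
      rw [← ofReal_norm, wav_norm, ENNReal.ofReal_one]
    rw [enorm_mul, enorm_mul, hw, mul_one, mul_pow, ← ha, hF]
  simp_rw [hEq]
  have hx : ∀ᵐ x : Fin N → Tor n L, ∫⁻ y, ‖Ψ (Function.update x i y)‖ₑ ^ 2 < ⊤ := by
    refine ae_lt_top ?_ ?_
    · have h2 : Measurable fun p : (Fin N → Tor n L) × Tor n L =>
          ‖Ψ (Function.update p.1 i p.2)‖ₑ ^ 2 := (hm.comp (upd2_meas i)).enorm.pow_const 2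
      exact h2.lintegral_prod_right'
    · rw [swap_all (f := fun x => ‖Ψ x‖ₑ ^ 2) (hm.enorm.pow_const 2) i]
      exact ENNReal.mul_ne_top ENNReal.ofReal_ne_top h1
  have hGm : Measurable fun x => ‖Ψ (Function.update x i (x i + h)) - Ψ x‖ₑ ^ 2 := by
    have h2 : Measurable fun x : Fin N → Tor n L => Function.update x i (x i + h) := by
      simp only [upd_add]
      exact measurable_const_add _
    exact ((hm.comp h2).sub hm).enorm.pow_const 2
  have e1 : ∀ k ∈ A, ‖wav k h - 1‖ₑ ^ 2 * ∫⁻ x, a * ‖F k x‖ₑ ^ 2 =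
      ∫⁻ x, a * (‖wav k h - 1‖ₑ ^ 2 * ‖F k x‖ₑ ^ 2) := by
    intro k _
    have h2 : Measurable fun x => ‖F k x‖ₑ ^ 2 := (hFm k).enorm.pow_const 2
    rw [lintegral_const_mul _ h2, lintegral_const_mul _ (h2.const_mul _),
      lintegral_const_mul _ h2]
    ring
  rw [Finset.sum_congr rfl e1, ← lintegral_finsetSum]
  · calc ∫⁻ x, ∑ k ∈ A, a * (‖wav k h - 1‖ₑ ^ 2 * ‖F k x‖ₑ ^ 2) ≤
          ∫⁻ x, a * (ENNReal.ofReal (L ^ n) * ∫⁻ y, ‖Ψ (Function.update x i (y + h)) -
            Ψ (Function.update x i y)‖ₑ ^ 2) := by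
          refine lintegral_mono_ae ?_
          filter_upwards [hx] with x hx
          rw [← Finset.mul_sum]
          have h2 := mom_one (f := fun y => Ψ (Function.update x i y))
            (hm.comp ((upd2_meas i).comp (measurable_const.prodMk measurable_id))) hx.ne h A
          rw [hF]
          gcongr
      _ = a * ENNReal.ofReal (L ^ n) * ∫⁻ x, ∫⁻ y, ‖Ψ (Function.update x i (y + h)) -
            Ψ (Function.update x i y)‖ₑ ^ 2 := by
          simp_rw [← mul_assoc]
          rw [lintegral_const_mul']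
          exact ENNReal.mul_ne_top hat ENNReal.ofReal_ne_top
      _ = a * ENNReal.ofReal (L ^ n) * (ENNReal.ofReal (L ^ n) *
            ∫⁻ x, ‖Ψ (Function.update x i (x i + h)) - Ψ x‖ₑ ^ 2) := by
          rw [← swap_all hGm i]
          simp only [Function.update_self, Function.update_idem]
      _ = ∫⁻ x, ‖Ψ (Function.update x i (x i + h)) - Ψ x‖ₑ ^ 2 := by
          rw [← mul_assoc, mul_assoc a, ← ENNReal.ofReal_mul hV.le, hae,
            ← ENNReal.ofReal_mul (by positivity)]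
          have : (L ^ n)⁻¹ ^ 2 * (L ^ n * L ^ n) = 1 := by field_simp
          rw [this, ENNReal.ofReal_one, one_mul]
  · intro k _
    exact ((((hFm k).enorm.pow_const 2)).const_mul _).const_mul _

/-- the average of the factor -/
lemma avg_low {ω s : ℝ} (hs : 0 < s) (h : 2 ≤ |ω| * s) :
    ENNReal.ofReal s ≤ ∫⁻ t in Set.Icc 0 s, ‖Complex.exp (((ω * t : ℝ) : ℂ) * Complex.I) - 1‖ₑ ^ 2 := by
  have hω : ω ≠ 0 := by
    intro h0
    rw [h0] at h
    norm_num at h
  have hω0 : 0 < |ω| := abs_pos.2 hω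
  have e1 : ∀ t : ℝ, ‖Complex.exp (((ω * t : ℝ) : ℂ) * Complex.I) - 1‖ₑ ^ 2 =
      ENNReal.ofReal (2 - 2 * Real.cos (ω * t)) := by
    intro t
    rw [← ofReal_norm, ← ENNReal.ofReal_pow (norm_nonneg _), ← Complex.normSq_eq_norm_sq,
      Complex.exp_mul_I, ← Complex.ofReal_cos, ← Complex.ofReal_sin, Complex.normSq_apply]
    congr 1
    simp only [Complex.sub_re, Complex.add_re, Complex.ofReal_re, Complex.mul_re, Complex.I_re,
      mul_zero, Complex.ofReal_im, Complex.I_im, mul_one, sub_self, add_zero, Complex.one_re,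
      Complex.sub_im, Complex.add_im, Complex.mul_im, zero_add, Complex.one_im, sub_zero]
    nlinarith [Real.sin_sq_add_cos_sq (ω * t)]
  simp_rw [e1]
  have hc : Continuous fun t : ℝ => 2 - 2 * Real.cos (ω * t) := by fun_prop
  rw [← ofReal_integral_eq_lintegral_ofReal
    (hc.continuousOn.integrableOn_compact isCompact_Icc)
    (Filter.Eventually.of_forall fun t => by
      have := Real.cos_le_one (ω * t)
      simp only [Pi.zero_apply]
      linarith)]
  apply ENNReal.ofReal_le_ofReal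
  rw [integral_Icc_eq_integral_Ioc, ← intervalIntegral.integral_of_le hs.le,
    intervalIntegral.integral_sub (Continuous.intervalIntegrable (by fun_prop) _ _)
      (Continuous.intervalIntegrable (by fun_prop) _ _),
    intervalIntegral.integral_const, intervalIntegral.integral_const_mul,
    intervalIntegral.integral_comp_mul_left (fun x => Real.cos x) hω, integral_cos]
  have h1 : ω⁻¹ • (Real.sin (ω * s) - Real.sin (ω * 0)) ≤ s / 2 := by
    rw [mul_zero, Real.sin_zero, sub_zero, smul_eq_mul]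
    calc ω⁻¹ * Real.sin (ω * s) ≤ |ω⁻¹ * Real.sin (ω * s)| := le_abs_self _
      _ = |ω|⁻¹ * |Real.sin (ω * s)| := by rw [abs_mul, abs_inv]
      _ ≤ |ω|⁻¹ * 1 := by
          gcongr
          exact Real.abs_sin_le_one _
      _ ≤ s / 2 := by
          rw [mul_one, inv_le_comm₀ hω0 (by positivity), inv_div, div_le_iff₀ hs]
          exact h
  rw [sub_zero, smul_eq_mul]
  linarith

/-- the particles with high momentum in one direction -/
theorem mom_dir {Ψ : (Fin N → Tor n L) → ℂ} (hm : Measurable Ψ) (h1 : ∫⁻ x, ‖Ψ x‖ₑ ^ 2 ≠ ⊤)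
    {s : ℝ} {D : ℝ≥0∞} (hs : 0 < s) (c : Fin n)
    (hD : ∀ t : ℝ, 0 ≤ t → t ≤ s → Dn Ψ (pr L (Pi.single c t)) ≤ D) (A : Finset (Fin n → ℤ))
    (hA : ∀ k ∈ A, 2 ≤ |2 * Real.pi * k c / L| * s) :
    ∑ k ∈ A, momN Ψ k ≤ D := by
  have hs0 : ENNReal.ofReal s ≠ 0 := by
    rw [ne_eq, ENNReal.ofReal_eq_zero]
    linarith
  have h2 : ∫⁻ t in Set.Icc 0 s, ∑ k ∈ A, ‖wav k (pr L (Pi.single c t)) - 1‖ₑ ^ 2 * momN Ψ k ≤
      ∫⁻ t in Set.Icc 0 s, D := by
    refine setLIntegral_mono' measurableSet_Icc fun t ht => ?_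
    exact (mom_Dn hm h1 _ A).trans (hD t ht.1 ht.2)
  rw [setLIntegral_const, Real.volume_Icc, sub_zero] at h2
  have hwm : ∀ k : Fin n → ℤ, Measurable fun t : ℝ =>
      ‖wav k (pr L (Pi.single c t)) - 1‖ₑ ^ 2 := by
    intro k
    simp_rw [wav_single]
    have : Continuous fun t : ℝ =>
        Complex.exp (((2 * Real.pi * k c / L * t : ℝ) : ℂ) * Complex.I) - 1 := by fun_prop
    exact this.measurable.enorm.pow_const 2
  rw [lintegral_finsetSum] at h2
  · have h3 : ∑ k ∈ A, ENNReal.ofReal s * momN Ψ k ≤ ∑ k ∈ A, ∫⁻ t in Set.Icc 0 s,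
        ‖wav k (pr L (Pi.single c t)) - 1‖ₑ ^ 2 * momN Ψ k := by
      refine Finset.sum_le_sum fun k hk => ?_
      rw [lintegral_mul_const _ (hwm k)]
      refine mul_le_mul' ?_ le_rfl
      simp_rw [wav_single]
      exact avg_low hs (hA k hk)
    have h4 := h3.trans h2
    rw [← Finset.mul_sum, mul_comm D] at h4
    exact (ENNReal.mul_le_mul_iff_right hs0 ENNReal.ofReal_ne_top).1 h4
  · intro k _
    exact (hwm k).mul_const _

/-- the particles with high momentum -/
theorem mom_high {Ψ : (Fin N → Tor n L) → ℂ} (hm : Measurable Ψ) (h1 : ∫⁻ x, ‖Ψ x‖ₑ ^ 2 ≠ ⊤)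
    {s : ℝ} {D : ℝ≥0∞} (hs : 0 < s)
    (hD : ∀ w ∈ cube n s, Dn Ψ (pr L w) ≤ D) :
    ∑' k : {k : Fin n → ℤ // ∃ c, 2 ≤ |2 * Real.pi * k c / L| * s}, momN Ψ k.1 ≤ n * D := by
  classical
  rw [ENNReal.tsum_eq_iSup_sum]
  refine iSup_le fun B => ?_
  have h2 : ∀ c : Fin n, ∑ k ∈ (B.map ⟨Subtype.val, Subtype.val_injective⟩).filter
      (fun k : Fin n → ℤ => 2 ≤ |2 * Real.pi * k c / L| * s), momN Ψ k ≤ D := by
    intro c
    refine mom_dir hm h1 hs c (fun t ht1 ht2 => hD _ ?_) _ fun k hk => (Finset.mem_filter.1 hk).2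
    intro c'
    by_cases h : c' = c
    · subst h
      rw [Pi.single_eq_same, abs_of_nonneg ht1]
      exact ht2
    · rw [Pi.single_eq_of_ne h, abs_zero]
      exact hs.le
  have h3 : ∑ k ∈ B, momN Ψ k.1 = ∑ k ∈ B.map ⟨Subtype.val, Subtype.val_injective⟩, momN Ψ k := by
    rw [Finset.sum_map]
    rfl
  rw [h3]
  calc ∑ k ∈ B.map ⟨Subtype.val, Subtype.val_injective⟩, momN Ψ k ≤
        ∑ c : Fin n, ∑ k ∈ (B.map ⟨Subtype.val, Subtype.val_injective⟩).filter
          (fun k : Fin n → ℤ => 2 ≤ |2 * Real.pi * k c / L| * s), momN Ψ k := by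
        simp_rw [Finset.sum_filter]
        rw [Finset.sum_comm]
        refine Finset.sum_le_sum fun k hk => ?_
        rw [Finset.mem_map] at hk
        obtain ⟨k', -, rfl⟩ := hk
        obtain ⟨c, hc⟩ := k'.2
        refine le_trans (le_of_eq ?_) (Finset.single_le_sum (f := fun c : Fin n =>
          if 2 ≤ |2 * Real.pi * (k'.1 c : ℝ) / L| * s then momN Ψ k'.1 else 0)
          (fun _ _ => bot_le) (Finset.mem_univ c))
        simp only [Function.Embedding.coeFn_mk]
        rw [if_pos hc]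
    _ ≤ ∑ _c : Fin n, D := Finset.sum_le_sum fun c _ => h2 c
    _ = n * D := by rw [Finset.sum_const, Finset.card_univ, Fintype.card_fin, nsmul_eq_mul]

end

end Pool.Agent.U327.BG
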