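import Pool.Agent.U327.BG.DiffAll
import Pool.Agent.U327.BG.CoreG
import Pool.Agent.U327.BG.Mom

/-!
# The momentum distribution of near ground states
-/

set_option autoImplicit false

open MeasureTheory
open scoped ENNReal

namespace Pool.Agent.U327.BG

open Pool.Agent.W761.CB Pool.Agent.W761.CC Pool.Agent.TH268.CC Pool.Agent.Y656

noncomputable section

/-- the tail of the momentum distribution, with a rate -/
theorem momM (n m : ℕ) (μ R₀ δ : ℝ) (hn : 3 ≤ n) (hm : m = n ^ 3 + 4 * n ^ 2) (hμ : 0 < μ)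
    (hδ : δ = 1 / (2 * m)) (v : ℝ → ℝ≥0∞) (hv : Measurable v)
    (hvR : ∀ r, R₀ < r → v r = 0) (hv0 : ∫⁻ z : Fin n → ℝ, v (el z) ≠ 0) :
    ∃ ρ₀ C : ℝ, 0 < ρ₀ ∧ ρ₀ < 1 ∧ 0 < C ∧ ∀ ρ : ℝ, 0 < ρ → ρ ≤ ρ₀ →
      ∀ (L : ℝ) [Fact (0 < L)], ρ ^ (-(1 / 2) : ℝ) ≤ L →
      ∀ N : ℕ, ρ / 2 * L ^ n ≤ N → (N : ℝ) ≤ ρ * L ^ n →
      ∀ Ψ : (Fin N → Tor n L) → ℂ, IsWf2 Ψ →
        (∀ Φ : (Fin N → Tor n L) → ℂ, IsWf Φ → enN (ENNReal.ofReal μ) (fun _ => 0) v Ψ ≤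
          enN (ENNReal.ofReal μ) (fun _ => 0) v Φ + ENNReal.ofReal (ρ ^ (2 + δ) * L ^ n)) →
        ∀ p : ℝ, 0 < p →
          ∑' k : {k : Fin n → ℤ // ∃ c, p ≤ |2 * Real.pi * k c / L|}, momN Ψ k.1 ≤
            ENNReal.ofReal (C * (ρ ^ (1 + δ) / p ^ 2 + ρ ^ (2 * δ)) * N) := by
  obtain ⟨X, Cf, hX, hCf, hmain⟩ := diffAll n m μ R₀ v hn hm hμ hv hvR hv0
  obtain ⟨-, hm3⟩ := m_natN hn hm
  have hm0 : (0 : ℝ) < m := by exact_mod_cast (by omega : 0 < m)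
  have h2m : 2 * m ≠ 0 := by omega
  have hX0 : 0 < X := by linarith
  have hn0 : (0 : ℝ) < n := by exact_mod_cast (by omega : 0 < n)
  refine ⟨1 / X ^ (2 * m), 4 * n * Cf, by positivity, ?_, by positivity, ?_⟩
  · rw [div_lt_one (by positivity)]
    exact one_lt_pow₀ (by linarith) h2m
  intro ρ hρ hρ1 L _ hL N hN1 hN2 Ψ hΨ hnear p hp
  obtain ⟨x, hx⟩ : ∃ x : ℝ, x = ρ ^ (-δ) := ⟨_, rfl⟩
  have hx0 : 0 < x := by rw [hx]; positivity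
  have hxm : ρ ^ (-(1 / 2) : ℝ) = x ^ m := by
    rw [hx, ← Real.rpow_natCast, ← Real.rpow_mul hρ.le, hδ]
    congr 1
    field_simp
  have hx2m : x ^ (2 * m) = 1 / ρ := by
    rw [hx, ← Real.rpow_natCast, ← Real.rpow_mul hρ.le, one_div ρ, ← Real.rpow_neg_one, hδ]
    congr 1
    push_cast
    field_simp
  have hXx : X ≤ x := by
    have h1 : X ^ (2 * m) ≤ x ^ (2 * m) := by
      rw [hx2m, le_one_div (by positivity) hρ]
      exact hρ1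
    exact (pow_le_pow_iff_left₀ hX0.le hx0.le h2m).1 h1
  have hZρ : ρ = 1 / (x ^ m) ^ 2 := by
    rw [← pow_mul, mul_comm m 2, hx2m, one_div_one_div]
  have e1 : ρ ^ (2 + δ) = ρ ^ 2 / x := by
    rw [Real.rpow_add hρ, hx, Real.rpow_neg hρ.le, div_inv_eq_mul]
    norm_num
  have e2 : ρ ^ (1 + δ) = ρ / x := by
    rw [Real.rpow_add hρ, hx, Real.rpow_neg hρ.le, div_inv_eq_mul, Real.rpow_one]
  have e3 : ρ ^ (2 * δ) = 1 / x ^ 2 := by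
    rw [hx, ← Real.rpow_natCast (ρ ^ (-δ)) 2, ← Real.rpow_mul hρ.le, one_div,
      ← Real.rpow_neg hρ.le]
    congr 1
    push_cast
    ring
  rw [hxm] at hL
  rw [e1] at hnear
  have hcore := hmain x _ ρ hXx rfl hZρ L hL N hN1 hN2 Ψ hΨ hnear
  have hs : 0 < 2 / p := by positivity
  have h1 : ∫⁻ x, ‖Ψ x‖ₑ ^ 2 ≠ ⊤ := by
    rw [hΨ.norm]
    exact ENNReal.one_ne_top
  have h2 := mom_high hΨ.meas h1 hs (fun w hw => hcore (2 / p) hs.le w hw)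
  have hset : ∀ k : Fin n → ℤ, (∃ c, p ≤ |2 * Real.pi * k c / L|) ↔
      ∃ c, 2 ≤ |2 * Real.pi * k c / L| * (2 / p) := by
    intro k
    refine exists_congr fun c => ?_
    rw [mul_div_assoc', le_div_iff₀ hp]
    constructor <;> intro h <;> linarith
  have h3 : ∑' k : {k : Fin n → ℤ // ∃ c, p ≤ |2 * Real.pi * k c / L|}, momN Ψ k.1 =
      ∑' k : {k : Fin n → ℤ // ∃ c, 2 ≤ |2 * Real.pi * k c / L| * (2 / p)}, momN Ψ k.1 :=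
    (Equiv.subtypeEquivRight hset).tsum_eq fun k => momN Ψ k.1
  rw [h3]
  refine h2.trans ?_
  rw [← ENNReal.ofReal_natCast n, ← ENNReal.ofReal_mul (by positivity)]
  apply ENNReal.ofReal_le_ofReal
  rw [e2, e3]
  have h4 : 0 ≤ 3 * (1 / x ^ 2) * n * Cf * N := by positivity
  have h5 : 4 * n * Cf * (ρ / x / p ^ 2 + 1 / x ^ 2) * N =
      n * (Cf * ((2 / p) ^ 2 * ρ / x + 1 / x ^ 2) * N) + 3 * (1 / x ^ 2) * n * Cf * N := by
    field_simp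
    ring
  rw [h5]
  linarith

/-- the momentum distribution, potentials with an integrable tail -/
theorem momG (n : ℕ) (μ R₀ : ℝ) (v : ℝ → ℝ≥0∞) (hn : 3 ≤ n) (hμ : 0 < μ) (hv : Measurable v)
    (hvt : ∫⁻ z in {z : Fin n → ℝ | R₀ < el z}, v (el z) ≠ ⊤)
    (hv0 : ∫⁻ z : Fin n → ℝ, v (el z) ≠ 0) (ε a : ℝ) (hε : 0 < ε) (ha : 0 < a) :
    ∃ ρ₀ δ : ℝ, 0 < ρ₀ ∧ 0 < δ ∧ ∀ ρ : ℝ, 0 < ρ → ρ ≤ ρ₀ →
      ∀ (L : ℝ) [Fact (0 < L)], ρ ^ (-(1 / 2) : ℝ) ≤ L →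
      ∀ N : ℕ, ρ / 2 * L ^ n ≤ N → (N : ℝ) ≤ ρ * L ^ n →
      ∀ Ψ : (Fin N → Tor n L) → ℂ, IsWf2 Ψ →
        (∀ Φ : (Fin N → Tor n L) → ℂ, IsWf Φ → enN (ENNReal.ofReal μ) (fun _ => 0) v Ψ ≤
          enN (ENNReal.ofReal μ) (fun _ => 0) v Φ + ENNReal.ofReal (δ * ρ ^ 2 * L ^ n)) →
        ∑' k : {k : Fin n → ℤ // ∃ c, a * ρ ^ (1 / 2 : ℝ) ≤ |2 * Real.pi * k c / L|},
          momN Ψ k.1 ≤ ENNReal.ofReal (ε * N) := by
  obtain ⟨m, hm⟩ : ∃ m : ℕ, m = n ^ 3 + 4 * n ^ 2 := ⟨_, rfl⟩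
  obtain ⟨-, hm3⟩ := m_natN hn hm
  have hm0 : (0 : ℝ) < m := by exact_mod_cast (by omega : 0 < m)
  have h2m : 2 * m ≠ 0 := by omega
  obtain ⟨X, δ, hX, hδ, hmain⟩ := coreG n m μ R₀ v hn hm hμ hv hvt hv0 ε (2 / a) hε
  have hX0 : 0 < X := by linarith
  refine ⟨1 / X ^ (2 * m), δ, by positivity, hδ, ?_⟩
  intro ρ hρ hρ1 L _ hL N hN1 hN2 Ψ hΨ hnear
  obtain ⟨y, hy⟩ : ∃ y : ℝ, y = ρ ^ (-(1 / (2 * m)) : ℝ) := ⟨_, rfl⟩
  have hy0 : 0 < y := by rw [hy]; positivity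
  have hym : ρ ^ (-(1 / 2) : ℝ) = y ^ m := by
    rw [hy, ← Real.rpow_natCast, ← Real.rpow_mul hρ.le]
    congr 1
    field_simp
  have hy2m : y ^ (2 * m) = 1 / ρ := by
    rw [hy, ← Real.rpow_natCast, ← Real.rpow_mul hρ.le, one_div ρ, ← Real.rpow_neg_one]
    congr 1
    push_cast
    field_simp
  have hXy : X ≤ y := by
    have h1 : X ^ (2 * m) ≤ y ^ (2 * m) := by
      rw [hy2m, le_one_div (by positivity) hρ]
      exact hρ1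
    exact (pow_le_pow_iff_left₀ hX0.le hy0.le h2m).1 h1
  have hZρ : ρ = 1 / (y ^ m) ^ 2 := by
    rw [← pow_mul, mul_comm m 2, hy2m, one_div_one_div]
  have hZ0 : 0 < ρ ^ (-(1 / 2) : ℝ) := by positivity
  have hcore := hmain y _ ρ hXy rfl hZρ L (by rw [← hym]; exact hL) N hN1 hN2 Ψ hΨ hnear
  rw [← hym] at hcore
  obtain ⟨s, hs⟩ : ∃ s : ℝ, s = 2 / a * ρ ^ (-(1 / 2) : ℝ) := ⟨_, rfl⟩
  have hs0 : 0 < s := by rw [hs]; positivity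
  have h1 : ∫⁻ x, ‖Ψ x‖ₑ ^ 2 ≠ ⊤ := by
    rw [hΨ.norm]
    exact ENNReal.one_ne_top
  have h2 := mom_high hΨ.meas h1 hs0 (fun w hw => hcore s hs0.le hs.le w hw)
  have hrr : ρ ^ (1 / 2 : ℝ) * ρ ^ (-(1 / 2) : ℝ) = 1 := by
    rw [← Real.rpow_add hρ]
    norm_num
  have hset : ∀ k : Fin n → ℤ, (∃ c, a * ρ ^ (1 / 2 : ℝ) ≤ |2 * Real.pi * k c / L|) ↔
      ∃ c, 2 ≤ |2 * Real.pi * k c / L| * s := by
    intro k
    refine exists_congr fun c => ?_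
    have e : a * ρ ^ (1 / 2 : ℝ) * s = 2 := by
      rw [hs]
      calc a * ρ ^ (1 / 2 : ℝ) * (2 / a * ρ ^ (-(1 / 2) : ℝ)) =
            a * (2 / a) * (ρ ^ (1 / 2 : ℝ) * ρ ^ (-(1 / 2) : ℝ)) := by ring
        _ = 2 := by rw [hrr]; field_simp
    constructor
    · intro h
      have h' := mul_le_mul_of_nonneg_right h hs0.le
      rwa [e] at h'
    · intro h
      by_contra hlt
      push Not at hlt
      have h' := mul_lt_mul_of_pos_right hlt hs0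
      rw [e] at h'
      linarith
  have h3 : ∑' k : {k : Fin n → ℤ // ∃ c, a * ρ ^ (1 / 2 : ℝ) ≤ |2 * Real.pi * k c / L|},
      momN Ψ k.1 = ∑' k : {k : Fin n → ℤ // ∃ c, 2 ≤ |2 * Real.pi * k c / L| * s}, momN Ψ k.1 :=
    (Equiv.subtypeEquivRight hset).tsum_eq fun k => momN Ψ k.1
  rw [h3]
  refine h2.trans ?_
  rw [← ENNReal.ofReal_natCast n, ← ENNReal.ofReal_mul (by positivity)]
  apply ENNReal.ofReal_le_ofReal
  have h2n : (2 : ℝ) * n ≤ 2 ^ n := by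
    obtain ⟨j, rfl⟩ : ∃ j, n = j + 3 := ⟨n - 3, by omega⟩
    clear * -
    induction j with
    | zero => norm_num
    | succ j ih =>
      push_cast at ih ⊢
      rw [show j + 1 + 3 = (j + 3) + 1 by ring, pow_succ]
      have : (1 : ℝ) ≤ 2 ^ (j + 3) := one_le_pow₀ (by norm_num)
      linarith
  calc (n : ℝ) * (2 * (ε * N / 2 ^ n)) = 2 * n / 2 ^ n * (ε * N) := by ring
    _ ≤ 1 * (ε * N) := by
        apply mul_le_mul_of_nonneg_right _ (by positivity)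
        rw [div_le_one (by positivity)]
        exact h2n
    _ = ε * N := one_mul _

end

end Pool.Agent.U327.BG
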