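import Pool.Agent.Y656.Main4

/-!
# The upper bound of the lowest energy, potentials with an integrable tail
-/

set_option autoImplicit false

open MeasureTheory
open scoped ENNReal

namespace Pool.Agent.U327.BG

open Pool.Agent.W761.CB Pool.Agent.W761.CC Pool.Agent.TH268.CC Pool.Agent.Y656

noncomputable section

/-- the upper bound of the energy -/
theorem upG (n : ℕ) (μ R₀ : ℝ) (v : ℝ → ℝ≥0∞) (hn : 3 ≤ n) (hμ : 0 < μ) (hv : Measurable v)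
    (hvt : ∫⁻ z in {z : Fin n → ℝ | R₀ < el z}, v (el z) ≠ ⊤) (hG0 : 0 < scat n μ v)
    (e : ℝ) (he0 : 0 < e) (he1 : e ≤ 1) :
    ∃ W : ℝ, 1 ≤ W ∧ ∀ (L : ℝ) [Fact (0 < L)] (N : ℕ) (ν : ℝ), W ≤ L → ν = N / L ^ n →
      0 < ν → ν * W ≤ 1 → 1 ≤ 2 * ν * L ^ 2 →
      ee n L (ENNReal.ofReal μ) (fun _ => 0) v N ≤
        ENNReal.ofReal (scat n μ v / 2 * ν ^ 2 * (1 + e) * L ^ n) := by
  have hTF := Pool.Agent.W135.CB.proof_tf
  have hCONV := conv2 hTF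
  have hKQ := Pool.Agent.W214.CC.main
  have hUPT := upt2 Pool.Agent.W216.CC.jas hTF
  have hn1 : 1 ≤ n := by omega
  have hsym0 := symH hKQ μ R₀ v hv hvt
  obtain ⟨G, hGdef⟩ : ∃ G : ℝ, G = scat n μ v := ⟨_, rfl⟩
  rw [← hGdef] at hG0 hsym0 ⊢
  -- the energy of one more particle
  obtain ⟨R, hRdef⟩ : ∃ R : ℝ, R = max 1 R₀ := ⟨_, rfl⟩
  have hR1 : 1 ≤ R := by rw [hRdef]; exact le_max_left _ _
  have hRR : R₀ ≤ R := by rw [hRdef]; exact le_max_right _ _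
  have hR0 : 0 < R := by linarith
  obtain ⟨Tv, hTvd⟩ : ∃ Tv : ℝ, Tv = (∫⁻ z : Fin n → ℝ, vo R₀ v (el z)).toReal := ⟨_, rfl⟩
  have hTv0 : 0 ≤ Tv := by rw [hTvd]; exact ENNReal.toReal_nonneg
  have hTv : ∫⁻ z : Fin n → ℝ, vo R₀ v (el z) ≤ ENNReal.ofReal Tv := by
    rw [hTvd, ENNReal.ofReal_toReal]
    rw [vo_int]
    exact hvt
  obtain ⟨D₀, hD₀⟩ : ∃ D₀ : ℝ, D₀ = 16 * (4 * R) ^ n * (n * μ + 1) + Tv := ⟨_, rfl⟩
  have hD₀0 : 0 < D₀ := by rw [hD₀]; positivity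
  obtain ⟨f, af, hfm, hfe, hf01, haf, hfa, hfQ⟩ := hsym0 (G * e / 32) (by positivity)
  obtain ⟨C, hC0, hupt⟩ := hUPT n μ af v f hn1 hμ hv hfm hfe hf01 haf hfa
    (ne_top_of_le_ne_top ENNReal.ofReal_ne_top hfQ)
  obtain ⟨t, ht⟩ : ∃ t : ℝ, t = G * e / (64 * D₀) := ⟨_, rfl⟩
  have ht0 : 0 < t := by rw [ht]; positivity
  have hD₀t : D₀ * t ≤ G * e / 64 := by
    rw [ht]
    refine le_of_eq ?_
    field_simp
  obtain ⟨W1, hW1⟩ : ∃ W1 : ℝ, W1 = 128 * D₀ / (t * (G * e)) := ⟨_, rfl⟩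
  obtain ⟨W2, hW2⟩ : ∃ W2 : ℝ, W2 = 2 * D₀ * (C + 1) * 64 / (G * e * t) := ⟨_, rfl⟩
  obtain ⟨W3, hW3⟩ : ∃ W3 : ℝ, W3 = 32 * (C + 1) / (G * e) := ⟨_, rfl⟩
  have hW1' : 0 < W1 := by rw [hW1]; positivity
  have hW2' : 0 < W2 := by rw [hW2]; positivity
  have hW3' : 0 < W3 := by rw [hW3]; positivity
  have hRn : 0 < 2 * (4 * R) ^ n := by positivity
  obtain ⟨W, hW⟩ : ∃ W : ℝ, W = 1 + 8 * af + W1 + 2 * (4 * R) ^ n + (C + 1) + W2 + W3 := ⟨_, rfl⟩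
  refine ⟨W, by rw [hW]; linarith, ?_⟩
  intro L _ N ν hWL hν hν0 hνW hνL
  have hLpos : 0 < L := Fact.out
  have hV : (0 : ℝ) < L ^ n := by positivity
  have hNν : (N : ℝ) = ν * L ^ n := by rw [hν]; field_simp
  have hN0 : (0 : ℝ) < N := by rw [hNν]; positivity
  have hN1 : 0 < N := by exact_mod_cast hN0
  have hL1 : 1 ≤ L := by linarith
  have hLa : 8 * af ≤ L := by linarith
  have hLW1 : W1 ≤ L := by linarith
  have hW0 : 1 ≤ W := by linarith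
  have hνX : ∀ X : ℝ, X ≤ W → ν * X ≤ 1 := fun X hX =>
    (mul_le_mul_of_nonneg_left hX hν0.le).trans hνW
  have hν1 : ν ≤ 1 := by
    have := hνX 1 hW0
    linarith
  have q4 : ν * (2 * (4 * R) ^ n) ≤ 1 := hνX _ (by linarith)
  have q6 : ν * (C + 1) ≤ 1 := hνX _ (by linarith)
  have q7 : ν * W2 ≤ 1 := hνX _ (by linarith)
  have q5 : ν * W3 ≤ 1 := hνX _ (by linarith)
  have hK : Measurable (fun _ : Fin n → ℝ => (0 : ℝ≥0∞)) := measurable_const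
  have hgE : gEv (ENNReal.ofReal μ) (fun _ => 0) v (s1 n L R) ≤ ENNReal.ofReal D₀ := by
    rw [hD₀]
    exact gE_D0 hTF hR1 hRR hμ hTv0 hv hTv (by simp)
  have hgv : gv (s1 n L R) ≤ ENNReal.ofReal ((4 * R) ^ n) := gv_s1 hR0
  have hN2 : 2 * (ENNReal.ofReal ((4 * R) ^ n) * N) ≤ ENNReal.ofReal (L ^ n) :=
    add_num hR0 hLpos hNν.le q4
  obtain ⟨Ca, hCa⟩ : ∃ Ca : ℝ, Ca = 2 * (D₀ * N) / L ^ n := ⟨_, rfl⟩
  have hCaE : 2 * (ENNReal.ofReal D₀ * N) / ENNReal.ofReal (L ^ n) = ENNReal.ofReal Ca := by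
    rw [hCa]
    exact Ca_eq hLpos hD₀0
  -- the upper bound of the lowest energy
  have hC1 : C * ν ≤ 1 := by
    have : 0 ≤ ν := hν0.le
    have h1 : C * ν + ν ≤ 1 := by
      have h2 : C * ν + ν = ν * (C + 1) := by ring
      rw [h2]
      exact q6
    linarith
  have hc2 : 2 * D₀ * C * ν / t ≤ G * e / 64 := by
    rw [hW2, mul_div_assoc', div_le_one (by positivity)] at q7
    rw [div_le_div_iff₀ ht0 (by norm_num)]
    calc 2 * D₀ * C * ν * 64 ≤ 2 * D₀ * (C + 1) * ν * 64 := by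
          gcongr
          linarith
      _ = ν * (2 * D₀ * (C + 1) * 64) := by ring
      _ ≤ _ := q7
  have hc3 : D₀ / t ≤ G * e / 64 * (ν * L ^ n) := by
    have h1 : L / 2 ≤ ν * L ^ n := by
      calc L / 2 = 1 * L / 2 := by ring
        _ ≤ 2 * ν * L ^ 2 * L / 2 := by gcongr
        _ = ν * L ^ 3 := by ring
        _ ≤ ν * L ^ n := mul_le_mul_of_nonneg_left (pow_le_pow_right₀ hL1 hn) hν0.le
    rw [hW1, div_le_iff₀ (by positivity)] at hLW1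
    rw [div_le_iff₀ ht0]
    have h2 : L / 2 * (G * e / 64 * t) ≤ ν * L ^ n * (G * e / 64 * t) :=
      mul_le_mul_of_nonneg_right h1 (by positivity)
    have h3 : L / 2 * (G * e / 64 * t) = L * (t * (G * e)) / 128 := by ring
    have h4 : ν * L ^ n * (G * e / 64 * t) = G * e / 64 * (ν * L ^ n) * t := by ring
    rw [h3, h4] at h2
    linarith
  have hc4 : C * (ν + 0) ≤ G * e / 32 := by
    rw [hW3, mul_div_assoc', div_le_one (by positivity)] at q5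
    rw [add_zero]
    have h1 : C * ν * 32 ≤ ν * (32 * (C + 1)) := by
      have : ν * (32 * (C + 1)) = C * ν * 32 + 32 * ν := by ring
      rw [this]
      linarith
    linarith
  obtain ⟨φ, hφ, hφ1, hφN, hφN2, hφE, hφ2⟩ := hupt L (fun _ => 0) 0 ν hLa hK le_rfl hν0
    hν1 (by simp)
  have hlowA : ee n L (ENNReal.ofReal μ) (fun _ => 0) v N * nE volume φ ≤
        en (ENNReal.ofReal μ) (fun _ => 0) v φ + ENNReal.ofReal Ca * dm volume N φ := by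
    rw [← hCaE]
    exact low3v hTF hCONV (s1_Pf (n := n) (L := L) R) hK hv hgE hgv ENNReal.ofReal_ne_top hN2 φ hφ
  have hup0 := ee_upper hN1 hν hCa hD₀0.le hlowA hφ hφ1 hφN hφN2 hφE hφ2 hfQ ht0 hG0 he0 hC0
      le_rfl hC1 hD₀t hc2 hc3 hc4
  refine hup0.trans (ENNReal.ofReal_le_ofReal ?_)
  have : G / 2 * ν ^ 2 * (1 + e / 4) ≤ G / 2 * ν ^ 2 * (1 + e) := by
    apply mul_le_mul_of_nonneg_left _ (by positivity)
    linarith
  exact mul_le_mul_of_nonneg_right this hV.le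

end

end Pool.Agent.U327.BG
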