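import Pool.Agent.Y656.Loc
import Mathlib

/-!
# Plane waves on the torus
-/

set_option autoImplicit false

open MeasureTheory
open scoped ENNReal

namespace Pool.Agent.U327.BG

open Pool.Agent.W761.CB Pool.Agent.Y656

noncomputable section

variable {n : ℕ} {L : ℝ} [Fact (0 < L)] {N : ℕ}

/-- the plane wave `exp (2 π i k · x / L)` on the torus -/
def wav (k : Fin n → ℤ) (x : Tor n L) : ℂ := ∏ c, (fourier (k c) (x c) : ℂ)

lemma four_add {T : ℝ} (m : ℤ) (x y : AddCircle T) :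
    (fourier m (x + y) : ℂ) = fourier m x * fourier m y := by
  simp only [fourier_apply, smul_add, AddCircle.toCircle_add, Circle.coe_mul]

lemma wav_add (k : Fin n → ℤ) (x y : Tor n L) : wav k (x + y) = wav k x * wav k y := by
  unfold wav
  rw [← Finset.prod_mul_distrib]
  exact Finset.prod_congr rfl fun c _ => four_add _ _ _

lemma wav_norm (k : Fin n → ℤ) (x : Tor n L) : ‖wav k x‖ = 1 := by
  unfold wav
  rw [norm_prod]
  exact Finset.prod_eq_one fun c _ => by rw [fourier_apply, Circle.norm_coe]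

lemma wav_zero (k : Fin n → ℤ) : wav k (0 : Tor n L) = 1 := by
  unfold wav
  exact Finset.prod_eq_one fun c _ => by rw [Pi.zero_apply, fourier_eval_zero]

lemma wav_cont (k : Fin n → ℤ) : Continuous (wav k : Tor n L → ℂ) := by
  unfold wav
  exact continuous_finset_prod _ fun c _ => (fourier (k c)).continuous.comp (continuous_apply c)

lemma wav_conj_mul (k : Fin n → ℤ) (x : Tor n L) : (starRingEnd ℂ) (wav k x) * wav k x = 1 := by
  rw [Complex.conj_mul', wav_norm]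
  norm_num

lemma wav_neg (k : Fin n → ℤ) (x : Tor n L) : wav k (-x) = (starRingEnd ℂ) (wav k x) := by
  have h1 : wav k (-x) * wav k x = 1 := by
    rw [← wav_add, neg_add_cancel, wav_zero]
  have h0 : wav k x ≠ 0 := by
    intro h
    have := wav_norm k x
    rw [h] at this
    simp at this
  exact mul_right_cancel₀ h0 (h1.trans (wav_conj_mul k x).symm)

/-- the value at `t e_c` -/
lemma wav_single (k : Fin n → ℤ) (c : Fin n) (t : ℝ) :
    wav k (pr L (Pi.single c t)) = Complex.exp (((2 * Real.pi * k c / L * t : ℝ) : ℂ) * Complex.I) := by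
  unfold wav
  rw [Finset.prod_eq_single c]
  · unfold pr
    rw [Pi.single_eq_same, fourier_coe_apply]
    congr 1
    push_cast
    ring
  · intro c' _ hc
    unfold pr
    rw [Pi.single_eq_of_ne hc]
    have : ((0 : ℝ) : AddCircle L) = 0 := rfl
    rw [this, fourier_eval_zero]
  · intro h
    exact absurd (Finset.mem_univ c) h

/-- orthogonality -/
lemma wav_orth {k k' : Fin n → ℤ} (h : k ≠ k') :
    ∫ x : Tor n L, (starRingEnd ℂ) (wav k x) * wav k' x = 0 := by
  have hL : 0 < L := Fact.out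
  obtain ⟨c, hc⟩ := Function.ne_iff.1 h
  have hd : ((k' c : ℝ) - k c) ≠ 0 := by
    have : k' c - k c ≠ 0 := sub_ne_zero.2 (Ne.symm hc)
    exact_mod_cast this
  obtain ⟨t, ht⟩ : ∃ t : ℝ, t = L / (2 * ((k' c : ℝ) - k c)) := ⟨_, rfl⟩
  obtain ⟨z, hz⟩ : ∃ z : Tor n L, z = pr L (Pi.single c t) := ⟨_, rfl⟩
  have hzv : (starRingEnd ℂ) (wav k z) * wav k' z = -1 := by
    rw [hz, wav_single, wav_single, ← Complex.exp_conj, ← Complex.exp_add]
    have e : (starRingEnd ℂ) (((2 * Real.pi * k c / L * t : ℝ) : ℂ) * Complex.I) +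
        ((2 * Real.pi * k' c / L * t : ℝ) : ℂ) * Complex.I = Real.pi * Complex.I := by
      rw [map_mul, Complex.conj_ofReal, Complex.conj_I]
      have : 2 * Real.pi * k' c / L * t - 2 * Real.pi * k c / L * t = Real.pi := by
        rw [ht]
        field_simp
      have h2 : ((2 * Real.pi * k' c / L * t : ℝ) : ℂ) - ((2 * Real.pi * k c / L * t : ℝ) : ℂ) =
          (Real.pi : ℂ) := by exact_mod_cast congrArg Complex.ofReal this
      rw [← h2]
      ring
    rw [e, Complex.exp_pi_mul_I]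
  have h1 : ∫ x : Tor n L, (starRingEnd ℂ) (wav k (x + z)) * wav k' (x + z) =
      ∫ x : Tor n L, (starRingEnd ℂ) (wav k x) * wav k' x :=
    integral_add_right_eq_self (fun x : Tor n L => (starRingEnd ℂ) (wav k x) * wav k' x) z
  have h2 : ∀ x : Tor n L, (starRingEnd ℂ) (wav k (x + z)) * wav k' (x + z) =
      -((starRingEnd ℂ) (wav k x) * wav k' x) := by
    intro x
    rw [wav_add, wav_add, map_mul]
    calc (starRingEnd ℂ) (wav k x) * (starRingEnd ℂ) (wav k z) * (wav k' x * wav k' z) =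
          (starRingEnd ℂ) (wav k x) * wav k' x * ((starRingEnd ℂ) (wav k z) * wav k' z) := by ring
      _ = _ := by rw [hzv]; ring
  simp_rw [h2] at h1
  rw [integral_neg] at h1
  have h3 := congrArg (fun w : ℂ => w / 2) (show (∫ x : Tor n L, (starRingEnd ℂ) (wav k x) * wav k' x) +
    (∫ x : Tor n L, (starRingEnd ℂ) (wav k x) * wav k' x) = 0 by
      nth_rewrite 1 [← h1]
      ring)
  simpa using h3

/-- Bessel's inequality -/
lemma bessel {f : Tor n L → ℂ} (hf : Measurable f) (hf2 : ∫⁻ x, ‖f x‖ₑ ^ 2 ≠ ⊤)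
    (A : Finset (Fin n → ℤ)) :
    ∑ k ∈ A, ‖∫ y, (starRingEnd ℂ) (wav k y) * f y‖ₑ ^ 2 ≤
      ENNReal.ofReal (L ^ n) * ∫⁻ x, ‖f x‖ₑ ^ 2 := by
  have hL : 0 < L := Fact.out
  have hV : 0 < L ^ n := by positivity
  have hvol : volume (Set.univ : Set (Tor n L)) = ENNReal.ofReal (L ^ n) :=
    (Pool.Agent.W135.CB.proof_tf n L).1
  haveI : IsFiniteMeasure (volume : Measure (Tor n L)) := ⟨by rw [hvol]; exact ENNReal.ofReal_lt_top⟩
  have hfm : MemLp f 2 (volume : Measure (Tor n L)) := by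
    refine ⟨hf.aestronglyMeasurable, ?_⟩
    rw [eLpNorm_lt_top_iff_lintegral_rpow_enorm_lt_top (by norm_num) (by norm_num)]
    have : ∀ x, ‖f x‖ₑ ^ (ENNReal.toReal 2) = ‖f x‖ₑ ^ 2 := fun x => by
      rw [ENNReal.toReal_ofNat, ENNReal.rpow_ofNat]
    simp_rw [this]
    exact lt_top_iff_ne_top.2 hf2
  have hwm : ∀ k : Fin n → ℤ, MemLp (wav k) 2 (volume : Measure (Tor n L)) := fun k =>
    MemLp.of_bound (wav_cont k).aestronglyMeasurable 1 (Filter.Eventually.of_forall fun x =>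
      (wav_norm k x).le)
  have inn : ∀ (f g : Tor n L → ℂ) (hf : MemLp f 2 volume) (hg : MemLp g 2 volume),
      inner ℂ (hf.toLp f) (hg.toLp g) = ∫ x, (starRingEnd ℂ) (f x) * g x := by
    intro f g hf hg
    rw [L2.inner_def]
    refine integral_congr_ae ?_
    filter_upwards [hf.coeFn_toLp, hg.coeFn_toLp] with x h1 h2
    rw [h1, h2, RCLike.inner_apply, mul_comm]
  obtain ⟨a, ha⟩ : ∃ a : ℝ, a = (√(L ^ n))⁻¹ := ⟨_, rfl⟩
  have ha2 : a ^ 2 * L ^ n = 1 := by
    rw [ha, inv_pow, Real.sq_sqrt hV.le]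
    field_simp
  have horth : Orthonormal ℂ fun k : Fin n → ℤ => (a : ℂ) • (hwm k).toLp (wav k) := by
    rw [orthonormal_iff_ite]
    intro k k'
    rw [inner_smul_left, inner_smul_right, inn, Complex.conj_ofReal]
    split_ifs with h
    · subst h
      simp_rw [wav_conj_mul]
      rw [integral_const, measureReal_def, hvol, ENNReal.toReal_ofReal hV.le]
      have : (a : ℂ) * (a * ((L ^ n : ℝ) • (1 : ℂ))) = ((a ^ 2 * L ^ n : ℝ) : ℂ) := by
        rw [Complex.real_smul]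
        push_cast
        ring
      rw [this, ha2]
      norm_num
    · rw [wav_orth h]
      ring
  have h1 := horth.sum_inner_products_le (x := hfm.toLp f) (s := A)
  have h2 : ∀ k, ‖inner ℂ ((a : ℂ) • (hwm k).toLp (wav k)) (hfm.toLp f)‖ ^ 2 =
      a ^ 2 * ‖∫ y, (starRingEnd ℂ) (wav k y) * f y‖ ^ 2 := by
    intro k
    rw [inner_smul_left, inn, norm_mul, mul_pow, Complex.conj_ofReal, Complex.norm_real,
      Real.norm_eq_abs, sq_abs]
  simp_rw [h2] at h1
  rw [← Finset.mul_sum] at h1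
  have h3 : ‖hfm.toLp f‖ ^ 2 = (∫⁻ x, ‖f x‖ₑ ^ 2).toReal := by
    rw [Lp.norm_toLp]
    have h4 : eLpNorm f 2 (volume : Measure (Tor n L)) ^ 2 = ∫⁻ x, ‖f x‖ₑ ^ 2 := by
      rw [eLpNorm_eq_lintegral_rpow_enorm_toReal (by norm_num) (by norm_num)]
      have : ∀ x, ‖f x‖ₑ ^ (ENNReal.toReal 2) = ‖f x‖ₑ ^ 2 := fun x => by
        rw [ENNReal.toReal_ofNat, ENNReal.rpow_ofNat]
      simp_rw [this]
      rw [← ENNReal.rpow_natCast, ← ENNReal.rpow_mul]
      norm_num
    rw [← ENNReal.toReal_pow, h4]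
  rw [h3] at h1
  have h5 : ∑ k ∈ A, ‖∫ y, (starRingEnd ℂ) (wav k y) * f y‖ ^ 2 ≤
      L ^ n * (∫⁻ x, ‖f x‖ₑ ^ 2).toReal := by
    have h6 := mul_le_mul_of_nonneg_left h1 hV.le
    calc ∑ k ∈ A, ‖∫ y, (starRingEnd ℂ) (wav k y) * f y‖ ^ 2 =
          (a ^ 2 * L ^ n) * ∑ k ∈ A, ‖∫ y, (starRingEnd ℂ) (wav k y) * f y‖ ^ 2 := by
          rw [ha2, one_mul]
      _ = L ^ n * (a ^ 2 * ∑ k ∈ A, ‖∫ y, (starRingEnd ℂ) (wav k y) * f y‖ ^ 2) := by ring
      _ ≤ _ := h6
  have h7 : ∑ k ∈ A, ‖∫ y, (starRingEnd ℂ) (wav k y) * f y‖ₑ ^ 2 =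
      ENNReal.ofReal (∑ k ∈ A, ‖∫ y, (starRingEnd ℂ) (wav k y) * f y‖ ^ 2) := by
    rw [ENNReal.ofReal_sum_of_nonneg fun k _ => by positivity]
    refine Finset.sum_congr rfl fun k _ => ?_
    rw [ENNReal.ofReal_pow (norm_nonneg _), ofReal_norm]
  rw [h7]
  refine (ENNReal.ofReal_le_ofReal h5).trans ?_
  rw [ENNReal.ofReal_mul hV.le, ENNReal.ofReal_toReal hf2]

end

end Pool.Agent.U327.BG
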